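import Pool.Agent.H38.CUBE.JJDefs2

/-!
# MP_47888e_al, block CONT/JJ, part 2: elementary lemmas on `act`, `phF`, `cf3`
-/

set_option autoImplicit false

open Polynomial

namespace Pool.CUBE

open Pool.CM Pool.H93.Cube

variable {E : Type} [Field E] {V W : Type} [AddCommGroup V] [Module E V] [AddCommGroup W]
  [Module E W]

theorem act_zero (F : ℤ → ℤ → ℤ → V) (l s t : ℤ) : act (0 : B3 E) F l s t = 0 := by
  unfold act
  simp

theorem act_add (x y : B3 E) (F : ℤ → ℤ → ℤ → V) (l s t : ℤ) :
    act (x + y) F l s t = act x F l s t + act y F l s t := by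
  unfold act
  rw [Polynomial.sum_add_index]
  · intro k
    simp
  · intro k a b
    rw [Polynomial.sum_add_index]
    · intro u
      simp
    · intro u a b
      rw [Polynomial.sum_add_index]
      · intro w
        simp
      · intro w a b
        rw [add_smul]

theorem act_monomial (k u w : ℕ) (e : E) (F : ℤ → ℤ → ℤ → V) (l s t : ℤ) :
    act (Polynomial.monomial k (Polynomial.monomial u (Polynomial.monomial w e)) : B3 E) F l s t =
      e • F (l - u) (s - k) (t - w) := by
  unfold act
  rw [Polynomial.sum_monomial_index _ _ (by simp), Polynomial.sum_monomial_index _ _ (by simp),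
    Polynomial.sum_monomial_index _ _ (by simp)]

/-- induction for elements of `E[τ][λ][σ]` -/
theorem B3_induction {P : B3 E → Prop} (_h0 : P 0) (hadd : ∀ x y, P x → P y → P (x + y))
    (hm : ∀ (k u w : ℕ) (e : E),
      P (Polynomial.monomial k (Polynomial.monomial u (Polynomial.monomial w e)))) (x : B3 E) :
    P x := by
  have h1 : ∀ (k u : ℕ) (z : E[X]), P (Polynomial.monomial k (Polynomial.monomial u z)) := by
    intro k u z
    induction z using Polynomial.induction_on' with
    | add z z' h h' =>
      rw [map_add, map_add]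
      exact hadd _ _ h h'
    | monomial w e => exact hm k u w e
  have h2 : ∀ (k : ℕ) (y : E[X][X]), P (Polynomial.monomial k y) := by
    intro k y
    induction y using Polynomial.induction_on' with
    | add z z' h h' =>
      rw [map_add]
      exact hadd _ _ h h'
    | monomial u z => exact h1 k u z
  induction x using Polynomial.induction_on' with
  | add z z' h h' => exact hadd _ _ h h'
  | monomial k y => exact h2 k y

/-- `act` only depends on the values of `F` at the shifted points with nonzero coefficient -/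
theorem act_congr (x : B3 E) (F G : ℤ → ℤ → ℤ → V) (l s t : ℤ)
    (h : ∀ k u w : ℕ, ((x.coeff k).coeff u).coeff w ≠ 0 →
      F (l - u) (s - k) (t - w) = G (l - u) (s - k) (t - w)) :
    act x F l s t = act x G l s t := by
  unfold act
  rw [Polynomial.sum_def, Polynomial.sum_def]
  refine Finset.sum_congr rfl fun k _ => ?_
  rw [Polynomial.sum_def, Polynomial.sum_def]
  refine Finset.sum_congr rfl fun u _ => ?_
  rw [Polynomial.sum_def, Polynomial.sum_def]
  refine Finset.sum_congr rfl fun w hw => ?_
  rw [h k u w (Polynomial.mem_support_iff.1 hw)]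

/-- additive and homogeneous maps commute with `act` -/
theorem map_act (f : V →+ W) (hf : ∀ (e : E) v, f (e • v) = e • f v) (x : B3 E)
    (F : ℤ → ℤ → ℤ → V) (l s t : ℤ) :
    f (act x F l s t) = act x (fun l s t => f (F l s t)) l s t := by
  unfold act
  rw [Polynomial.sum_def, Polynomial.sum_def, map_sum]
  refine Finset.sum_congr rfl fun k _ => ?_
  rw [Polynomial.sum_def, Polynomial.sum_def, map_sum]
  refine Finset.sum_congr rfl fun u _ => ?_
  rw [Polynomial.sum_def, Polynomial.sum_def, map_sum]
  refine Finset.sum_congr rfl fun w _ => ?_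
  rw [hf]

theorem act_zero_right (x : B3 E) (l s t : ℤ) : act x (fun _ _ _ => (0 : V)) l s t = 0 := by
  unfold act
  simp [Polynomial.sum_def]

theorem act_add_right (x : B3 E) (F G : ℤ → ℤ → ℤ → V) (l s t : ℤ) :
    act x (fun l s t => F l s t + G l s t) l s t = act x F l s t + act x G l s t := by
  unfold act
  simp only [Polynomial.sum_def]
  rw [← Finset.sum_add_distrib]
  refine Finset.sum_congr rfl fun k _ => ?_
  rw [← Finset.sum_add_distrib]
  refine Finset.sum_congr rfl fun u _ => ?_
  rw [← Finset.sum_add_distrib]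
  refine Finset.sum_congr rfl fun w _ => ?_
  rw [smul_add]

theorem act_sub_right (x : B3 E) (F G : ℤ → ℤ → ℤ → V) (l s t : ℤ) :
    act x (fun l s t => F l s t - G l s t) l s t = act x F l s t - act x G l s t := by
  unfold act
  simp only [Polynomial.sum_def]
  rw [← Finset.sum_sub_distrib]
  refine Finset.sum_congr rfl fun k _ => ?_
  rw [← Finset.sum_sub_distrib]
  refine Finset.sum_congr rfl fun u _ => ?_
  rw [← Finset.sum_sub_distrib]
  refine Finset.sum_congr rfl fun w _ => ?_
  rw [smul_sub]

/-- `act x F` is in a subgroup if all the terms are -/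
theorem act_mem (S : AddSubgroup V) (x : B3 E) (F : ℤ → ℤ → ℤ → V) (l s t : ℤ)
    (h : ∀ k u w : ℕ, ((x.coeff k).coeff u).coeff w ≠ 0 →
      ((x.coeff k).coeff u).coeff w • F (l - u) (s - k) (t - w) ∈ S) :
    act x F l s t ∈ S := by
  unfold act
  rw [Polynomial.sum_def]
  refine S.sum_mem fun k _ => ?_
  rw [Polynomial.sum_def]
  refine S.sum_mem fun u _ => ?_
  rw [Polynomial.sum_def]
  exact S.sum_mem fun w hw => h k u w (Polynomial.mem_support_iff.1 hw)

/-- `act` as a sum over a box -/
theorem act_eq_sum (x : B3 E) (F : ℤ → ℤ → ℤ → V) (l s t : ℤ) (B : ℕ)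
    (hB : ∀ k u w : ℕ, ((x.coeff k).coeff u).coeff w ≠ 0 → k < B ∧ u < B ∧ w < B) :
    act x F l s t = ∑ k ∈ Finset.range B, ∑ u ∈ Finset.range B, ∑ w ∈ Finset.range B,
      ((x.coeff k).coeff u).coeff w • F (l - u) (s - k) (t - w) := by
  have hz : ∀ k, x.coeff k ≠ 0 → k < B := by
    intro k hk
    by_contra hc
    refine hk (Polynomial.ext fun u => Polynomial.ext fun w => ?_)
    by_contra h
    exact hc (hB k u w (by simpa using h)).1
  have hy : ∀ k u, (x.coeff k).coeff u ≠ 0 → u < B := by
    intro k u hk
    by_contra hc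
    refine hk (Polynomial.ext fun w => ?_)
    by_contra h
    exact hc (hB k u w (by simpa using h)).2.1
  unfold act
  rw [Polynomial.sum_def]
  rw [Finset.sum_subset (s₂ := Finset.range B)
    (fun k hk => Finset.mem_range.2 (hz k (Polynomial.mem_support_iff.1 hk)))]
  · refine Finset.sum_congr rfl fun k _ => ?_
    rw [Polynomial.sum_def, Finset.sum_subset (s₂ := Finset.range B)
      (fun u hu => Finset.mem_range.2 (hy k u (Polynomial.mem_support_iff.1 hu)))]
    · refine Finset.sum_congr rfl fun u _ => ?_
      rw [Polynomial.sum_def, Finset.sum_subset (s₂ := Finset.range B)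
        (fun w hw => Finset.mem_range.2 (hB k u w (Polynomial.mem_support_iff.1 hw)).2.2)]
      intro w _ hw
      rw [Polynomial.notMem_support_iff.1 hw, zero_smul]
    · intro u _ hu
      rw [Polynomial.notMem_support_iff.1 hu]
      simp
  · intro k _ hk
    rw [Polynomial.notMem_support_iff.1 hk]
    simp

theorem cf3_zero (l s t : ℤ) : cf3 (0 : T3 E) l s t = 0 := rfl

theorem cf3_add (x y : T3 E) (l s t : ℤ) : cf3 (x + y) l s t = cf3 x l s t + cf3 y l s t := rfl

theorem cf3_neg (x : T3 E) (l s t : ℤ) : cf3 (-x) l s t = -cf3 x l s t := rfl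

theorem cf3_sub (x y : T3 E) (l s t : ℤ) : cf3 (x - y) l s t = cf3 x l s t - cf3 y l s t := rfl

/-- `cf3` as an additive map -/
noncomputable def cf3H (E : Type) [Field E] (l s t : ℤ) : T3 E →+ E where
  toFun x := cf3 x l s t
  map_zero' := rfl
  map_add' _ _ := rfl

theorem cf3_sum {ι : Type*} (S : Finset ι) (f : ι → T3 E) (l s t : ℤ) :
    cf3 (∑ x ∈ S, f x) l s t = ∑ x ∈ S, cf3 (f x) l s t := map_sum (cf3H E l s t) f S

theorem phF_add (φ : E →+* E) (p : ℕ) (F G : ℤ → ℤ → ℤ → E) (l s t : ℤ) :
    phF φ p (fun l s t => F l s t + G l s t) l s t = phF φ p F l s t + phF φ p G l s t := by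
  unfold phF
  split_ifs
  · rw [map_add]
  · rw [add_zero]

theorem phF_sub (φ : E →+* E) (p : ℕ) (F G : ℤ → ℤ → ℤ → E) (l s t : ℤ) :
    phF φ p (fun l s t => F l s t - G l s t) l s t = phF φ p F l s t - phF φ p G l s t := by
  unfold phF
  split_ifs
  · rw [map_sub]
  · rw [sub_zero]

end Pool.CUBE
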