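import Pool.Agent.H38.CUBE.JJStmts2
import Pool.Agent.H38.CUBE.JJAct

/-!
# MP_47888e_al, block CONT/JJ, part 2: module AFR
-/

set_option autoImplicit false

open Polynomial

namespace Pool.CUBE

open Pool.CM Pool.H93.Cube

namespace F_AFR

section

variable {E : Type} [Field E]

/-- the action of `E[τ][λ]` on families of two indices -/
noncomputable def act2 (y : B2 E) (G : ℤ → ℤ → E) (l t : ℤ) : E :=
  y.sum fun u z => z.sum fun w e => e • G (l - u) (t - w)

theorem act2_zero (G : ℤ → ℤ → E) (l t : ℤ) : act2 (0 : B2 E) G l t = 0 := by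
  unfold act2
  simp

theorem act2_add (x y : B2 E) (G : ℤ → ℤ → E) (l t : ℤ) :
    act2 (x + y) G l t = act2 x G l t + act2 y G l t := by
  unfold act2
  rw [Polynomial.sum_add_index]
  · intro u
    simp
  · intro u a b
    rw [Polynomial.sum_add_index]
    · intro w
      simp
    · intro w a b
      rw [add_smul]

theorem act2_monomial (u w : ℕ) (e : E) (G : ℤ → ℤ → E) (l t : ℤ) :
    act2 (Polynomial.monomial u (Polynomial.monomial w e) : B2 E) G l t =
      e • G (l - u) (t - w) := by
  unfold act2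
  rw [Polynomial.sum_monomial_index _ _ (by simp), Polynomial.sum_monomial_index _ _ (by simp)]

theorem B2_induction {P : B2 E → Prop} (hadd : ∀ x y, P x → P y → P (x + y))
    (hm : ∀ (u w : ℕ) (e : E), P (Polynomial.monomial u (Polynomial.monomial w e)))
    (x : B2 E) : P x := by
  have h1 : ∀ (u : ℕ) (z : E[X]), P (Polynomial.monomial u z) := by
    intro u z
    induction z using Polynomial.induction_on' with
    | add z z' h h' =>
      rw [map_add]
      exact hadd _ _ h h'
    | monomial w e => exact hm u w e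
  induction x using Polynomial.induction_on' with
  | add z z' h h' => exact hadd _ _ h h'
  | monomial k y => exact h1 k y

/-- the family of the coefficients of `z` -/
theorem coeff_mul_act2 (z : B2 E) (G : ℤ → ℤ → E)
    (hG : ∀ l t : ℤ, G l t = if 0 ≤ l ∧ 0 ≤ t then (z.coeff l.toNat).coeff t.toNat else 0)
    (y : B2 E) (l t : ℕ) : ((y * z).coeff l).coeff t = act2 y G l t := by
  induction y using B2_induction with
  | hadd x y hx hy => rw [add_mul, Polynomial.coeff_add, Polynomial.coeff_add, act2_add, hx, hy]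
  | hm u w e =>
    rw [act2_monomial, hG, ← Polynomial.C_mul_X_pow_eq_monomial, mul_assoc,
      Polynomial.coeff_C_mul, Polynomial.coeff_X_pow_mul', smul_eq_mul]
    by_cases hu : u ≤ l
    · rw [if_pos hu, ← Polynomial.C_mul_X_pow_eq_monomial, mul_assoc,
        Polynomial.coeff_C_mul, Polynomial.coeff_X_pow_mul']
      by_cases hw : w ≤ t
      · rw [if_pos hw, if_pos (by omega)]
        congr 3
        · omega
        · omega
      · rw [if_neg hw, if_neg (by omega)]
    · rw [if_neg hu, mul_zero, Polynomial.coeff_zero, if_neg (by omega), mul_zero]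

end

end F_AFR

open F_AFR in
theorem afr_thm (hJFS : JFSStmt) (hIOJ : Corner.IOJStmt) (hFRO : FROStmt)
    (hX1H : Corner.X1HStmt) (hRHO : Corner.RHOStmt) : Corner.AFRStmt := by
  classical
  intro X E _ _ A hA n K J C hJ
  obtain ⟨p0, hp0⟩ := hJFS n K.D J C K.hD hJ
  obtain ⟨hX1hom, hX1int⟩ := hX1H X E A hA n K
  refine ((Idx.Ev.large p0).and (hX1int.and (hRHO X E A hA n K J))).mono ?_
  rintro i ⟨hpi, hXi, hPE, hR⟩ a N l t ha hlv hN
  obtain ⟨hsup, -⟩ := hR a ha hlv
  obtain ⟨F1, F2, F3, F4⟩ := hFRO X E A hA i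
  have hp : 0 < X.p i := (X.hp i).pos
  have hpZ : (0 : ℤ) < X.p i := by exact_mod_cast hp
  have hlva : 1 ≤ K.lv a := Nat.div_pos (Nat.le_of_dvd (Nat.succ_pos _) ha) K.hD
  have hzero : ∀ b (l' s' t' : ℤ), l' < 0 ∨ t' < 0 → K.AI b l' s' t' = 0 := by
    intro b l' s' t' h
    unfold Corner.AI
    rw [if_neg]
    rintro ⟨_, h1, h2⟩
    omega
  have hAneg : ∀ b (l' s' t' : ℤ), -s' < K.lv b → K.AI b l' s' t' = 0 := by
    intro b l' s' t' h
    unfold Corner.AI
    by_cases hc : K.D ∣ b.degree + (n + 1) ∧ 0 ≤ l' ∧ 0 ≤ t'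
    · rw [if_pos hc]
      unfold Corner.Ainf
      rw [if_neg]
      have := hc.2.1
      omega
    · rw [if_neg hc]
  have hpn : ∀ (m : ℕ) (y : B2 E) (u w : ℕ), (((X.p i : B2 E) ^ m * y).coeff u).coeff w =
      (X.p i : E) ^ m * (y.coeff u).coeff w := by
    intro m y u w
    have h1 : (X.p i : B2 E) ^ m = Polynomial.C (Polynomial.C ((X.p i : E) ^ m)) := by
      rw [map_pow, map_pow, map_natCast, map_natCast]
    rw [h1, Polynomial.coeff_C_mul, Polynomial.coeff_C_mul]
  by_cases hneg : l < 0 ∨ t < 0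
  · rw [hzero a _ _ _ hneg, mul_zero, sub_zero, Finset.sum_eq_zero]
    · exact FUN.dv_zero
    · intro b _
      rw [← act_zero_right (V := E) (MvPolynomial.coeff b (K.rho3 (A.phi i) (X.p i) J a)) l
        (-N - 1) t]
      refine act_congr _ _ _ _ _ _ fun k u w _ => ?_
      unfold phF
      by_cases hc : (X.p i : ℤ) ∣ l - u ∧ (X.p i : ℤ) ∣ (-N - 1) - k ∧ (X.p i : ℤ) ∣ t - w
      · rw [if_pos hc, hzero, map_zero]
        rcases hneg with h | h
        · left
          exact Int.ediv_neg_of_neg_of_pos (by omega) hpZ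
        · right
          exact Int.ediv_neg_of_neg_of_pos (by omega) hpZ
      · rw [if_neg hc]
  rw [not_or, not_lt, not_lt] at hneg
  by_cases hN0 : N < 0
  · have hz : K.AI a l (-N - 1) t = 0 := by
      refine hAneg a _ _ _ ?_
      omega
    rw [hz, mul_zero, sub_zero, Finset.sum_eq_zero]
    · exact FUN.dv_zero
    · intro b hb
      rw [← act_zero_right (V := E) (MvPolynomial.coeff b (K.rho3 (A.phi i) (X.p i) J a)) l
        (-N - 1) t]
      refine act_congr _ _ _ _ _ _ fun k u w hk => ?_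
      unfold phF
      by_cases hc : (X.p i : ℤ) ∣ l - u ∧ (X.p i : ℤ) ∣ (-N - 1) - k ∧ (X.p i : ℤ) ∣ t - w
      · rw [if_pos hc, hAneg, map_zero]
        have hk' : (MvPolynomial.coeff b (K.rho3 (A.phi i) (X.p i) J a)).coeff k ≠ 0 := by
          intro h0
          exact hk (by rw [h0, Polynomial.coeff_zero, Polynomial.coeff_zero])
        have h5 := (hsup b (MvPolynomial.mem_support_iff.1 hb)).2.2 k hk'
        obtain ⟨y, hy⟩ := hc.2.1
        rw [hy, Int.mul_ediv_cancel_left _ hpZ.ne']
        have h6 : (X.p i : ℤ) * (-y) < X.p i * (K.lv b : ℤ) := by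
          have h7 : ((k : ℤ)) + K.lv a ≤ X.p i * K.lv b := by exact_mod_cast h5
          have h8 : (1 : ℤ) ≤ K.lv a := by exact_mod_cast hlva
          nlinarith
        exact lt_of_mul_lt_mul_left h6 hpZ.le
      · rw [if_neg hc]
  -- the main case
  rw [not_lt] at hN0
  obtain ⟨l, rfl⟩ := Int.eq_ofNat_of_zero_le hneg.1
  obtain ⟨t, rfl⟩ := Int.eq_ofNat_of_zero_le hneg.2
  obtain ⟨N, rfl⟩ := Int.eq_ofNat_of_zero_le hN0
  have hγ : ∀ j : ℕ, (j.factorial : B3 E) * cB3 E ((X.p i : E) ^ j / (j.factorial : E)) =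
      (X.p i : B3 E) ^ j := by
    intro j
    have h1 : (j.factorial : B3 E) = cB3 E (j.factorial : E) := by rw [map_natCast]
    rw [h1, ← map_mul, mul_div_cancel₀ _ (by exact_mod_cast j.factorial_ne_zero), map_pow,
      map_natCast]
  obtain ⟨y, hy, he⟩ := hp0 (B2 E) (O2 (A.O i)) (phB2 (A.phi i) (X.p i)) (X.p i) (X.hp i)
    hpi.le F3 F1 F2 K.X1 hX1hom hXi
    (fun j => cB3 E ((X.p i : E) ^ j / (j.factorial : E))) hγ K.P3 (K.EL3 (A.phi i) (X.p i))
    rfl hPE (K.lv a) a hlva hlv (Nat.mul_div_cancel' ha).symm N (by exact_mod_cast hN)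
  change ∑ b ∈ (K.rho3 (A.phi i) (X.p i) J a).support,
    ∑ k ∈ (MvPolynomial.coeff b (K.rho3 (A.phi i) (X.p i) J a)).support,
      (MvPolynomial.coeff b (K.rho3 (A.phi i) (X.p i) J a)).coeff k * _ - _ = _ at he
  generalize K.rho3 (A.phi i) (X.p i) J a = ρ at *
  refine ⟨(y.coeff l).coeff t, hy l t, ?_⟩
  have he2 := congrArg (fun z : B2 E => (z.coeff l).coeff t) he
  simp only [Polynomial.coeff_sub] at he2
  rw [hpn, hpn, hIOJ n E K a N ha l t] at he2
  rw [← he2]
  congr 1
  · rw [Polynomial.finsetSum_coeff, Polynomial.finsetSum_coeff]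
    refine Finset.sum_congr rfl fun b hb => ?_
    rw [Polynomial.finsetSum_coeff, Polynomial.finsetSum_coeff]
    change (MvPolynomial.coeff b ρ).sum (fun k y => act2 y
      (fun l' t' => phF (A.phi i) (X.p i) (K.AI b) l' ((-(N : ℤ) - 1) - k) t') l t) = _
    rw [Polynomial.sum_def]
    refine Finset.sum_congr rfl fun k _ => ?_
    refine (coeff_mul_act2 _ _ ?_ _ l t).symm
    intro l' t'
    have hD := (hsup b (MvPolynomial.mem_support_iff.1 hb)).1
    by_cases hlt : 0 ≤ l' ∧ 0 ≤ t'
    · rw [if_pos hlt]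
      obtain ⟨l', rfl⟩ := Int.eq_ofNat_of_zero_le hlt.1
      obtain ⟨t', rfl⟩ := Int.eq_ofNat_of_zero_le hlt.2
      rw [Int.toNat_natCast, Int.toNat_natCast]
      unfold phF
      by_cases hk : X.p i ∣ N + 1 + k
      · rw [if_pos hk, F4]
        have hk' : (X.p i : ℤ) ∣ -(N : ℤ) - 1 - k := by
          obtain ⟨q, hq⟩ := hk
          refine ⟨-(q : ℤ), ?_⟩
          have h9 : (N : ℤ) + 1 + k = X.p i * q := by exact_mod_cast hq
          linarith
        by_cases hlt' : X.p i ∣ l' ∧ X.p i ∣ t'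
        · rw [if_pos hlt', if_pos ⟨by exact_mod_cast hlt'.1, hk', by exact_mod_cast hlt'.2⟩,
            hIOJ n E K b _ hD]
          congr 1
          obtain ⟨q, hq⟩ := hk
          have h9 : -(N : ℤ) - 1 - k = X.p i * (-(q : ℤ)) := by
            have h9 : (N : ℤ) + 1 + k = X.p i * q := by exact_mod_cast hq
            linarith
          have hq1 : 1 ≤ q := by
            by_contra hc
            have : q = 0 := by omega
            subst this
            omega
          rw [h9, Int.mul_ediv_cancel_left _ hpZ.ne', hq, Nat.mul_div_cancel_left _ hp]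
          unfold Corner.AI
          rw [if_pos ⟨hD, by positivity, by positivity⟩]
          have e1 : ((l' : ℤ) / (X.p i : ℤ)).toNat = l' / X.p i := by
            rw [← Int.natCast_div, Int.toNat_natCast]
          have e2 : ((t' : ℤ) / (X.p i : ℤ)).toNat = t' / X.p i := by
            rw [← Int.natCast_div, Int.toNat_natCast]
          have e3 : -(-(q : ℤ)) - 1 = ((q - 1 : ℕ) : ℤ) := by omega
          rw [e1, e2, e3]
        · rw [if_neg hlt', if_neg]
          rintro ⟨h1, _, h2⟩
          exact hlt' ⟨by exact_mod_cast h1, by exact_mod_cast h2⟩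
      · rw [if_neg hk, Polynomial.coeff_zero, Polynomial.coeff_zero, if_neg]
        rintro ⟨_, ⟨q, hq⟩, _⟩
        apply hk
        have h9 : (N : ℤ) + 1 + k = X.p i * (-q) := by linarith
        have h10 : (X.p i : ℤ) ∣ ((N + 1 + k : ℕ) : ℤ) := ⟨-q, by push_cast; exact h9⟩
        exact_mod_cast h10
    · rw [if_neg hlt]
      unfold phF
      by_cases hc : (X.p i : ℤ) ∣ l' ∧ (X.p i : ℤ) ∣ (-(N : ℤ) - 1) - k ∧ (X.p i : ℤ) ∣ t'
      · rw [if_pos hc, hzero, map_zero]
        by_cases hl' : 0 ≤ l'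
        · right
          exact Int.ediv_neg_of_neg_of_pos (by omega) hpZ
        · left
          exact Int.ediv_neg_of_neg_of_pos (by omega) hpZ
      · rw [if_neg hc]
  · congr 1
    unfold Corner.AI
    rw [if_pos ⟨ha, by positivity, by positivity⟩, Int.toNat_natCast, Int.toNat_natCast]
    congr 1
    ring

end Pool.CUBE
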