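import Pool.Agent.H38.CUBE.JJStmts2
import Pool.Agent.H38.CUBE.JJAct

/-!
# MP_47888e_al, block CONT/JJ, part 2: module FROB
-/

set_option autoImplicit false

open Polynomial

namespace Pool.CUBE

open Pool.CM Pool.H93.Cube

namespace F_FROB

section

variable {n : ℕ} {E : Type} [Field E] (K : Corner n E)

theorem lv_pos (b : Fin (n + 1) →₀ ℕ) (hb : K.D ∣ b.degree + (n + 1)) : 1 ≤ K.lv b :=
  Nat.div_pos (Nat.le_of_dvd (Nat.succ_pos _) hb) K.hD

theorem AI_eq_RI [CharZero E] (hEVR : Corner.EVRStmt) (b : Fin (n + 1) →₀ ℕ) (l s t : ℤ)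
    (h : (K.lv b : ℤ) + l ≤ -s) : K.AI b l s t = K.RI 0 b l s t := by
  unfold Corner.AI Corner.RI
  by_cases hc : K.D ∣ b.degree + (n + 1) ∧ 0 ≤ l ∧ 0 ≤ t
  · rw [if_pos hc, if_pos hc]
    refine ((hEVR n E K (K.lv b) l.toNat t.toNat (MvPolynomial.monomial b 1) (-s - 1)
      (lv_pos K b hc.1) ?_).1).symm
    have := hc.2.1
    omega
  · rw [if_neg hc, if_neg hc]

theorem RI_zero [CharZero E] (hEVR : Corner.EVRStmt) (b : Fin (n + 1) →₀ ℕ) (l s t : ℤ)
    (h : (K.lv b : ℤ) + l ≤ -s) (j : ℕ) (hj : 1 ≤ j) : K.RI j b l s t = 0 := by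
  unfold Corner.RI
  by_cases hc : K.D ∣ b.degree + (n + 1) ∧ 0 ≤ l ∧ 0 ≤ t
  · rw [if_pos hc]
    refine (hEVR n E K (K.lv b) l.toNat t.toNat (MvPolynomial.monomial b 1) (-s - 1)
      (lv_pos K b hc.1) ?_).2 j hj
    have := hc.2.1
    omega
  · rw [if_neg hc]

theorem phF_congr (φ : E →+* E) (p : ℕ) (F G : ℤ → ℤ → ℤ → E) (l s t : ℤ)
    (h : (p : ℤ) ∣ l → (p : ℤ) ∣ s → F (l / p) (s / p) (t / p) = G (l / p) (s / p) (t / p)) :
    phF φ p F l s t = phF φ p G l s t := by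
  unfold phF
  by_cases hc : (p : ℤ) ∣ l ∧ (p : ℤ) ∣ s ∧ (p : ℤ) ∣ t
  · rw [if_pos hc, if_pos hc, h hc.1 hc.2.1]
  · rw [if_neg hc, if_neg hc]

/-- `p (J + C) ≤ -s`, `l ≤ C p` imply the bound at the points of `act .. (phF ..)` -/
theorem bound_aux (p : ℕ) (hp : 0 < p) (J C : ℕ) (L : ℕ) (hL : L ≤ J) (l s : ℤ)
    (hl : l ≤ ((C * p : ℕ) : ℤ)) (hs : ((p * (J + C) : ℕ) : ℤ) ≤ -s) (u k : ℕ)
    (h1 : (p : ℤ) ∣ l - u) (h2 : (p : ℤ) ∣ s - k) :
    (L : ℤ) + (l - u) / p ≤ -((s - k) / p) := by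
  obtain ⟨x, hx⟩ := h1
  obtain ⟨y, hy⟩ := h2
  have hp' : (0 : ℤ) < p := by exact_mod_cast hp
  rw [hx, hy, Int.mul_ediv_cancel_left _ hp'.ne', Int.mul_ediv_cancel_left _ hp'.ne']
  have h3 : (p : ℤ) * x ≤ p * C := by
    have hu : (0 : ℤ) ≤ u := Int.natCast_nonneg u
    push_cast at hl
    nlinarith
  have h4 : x ≤ C := le_of_mul_le_mul_left h3 hp'
  have h5 : (p : ℤ) * (J + C) ≤ p * (-y) := by
    have hk : (0 : ℤ) ≤ k := Int.natCast_nonneg k
    push_cast at hs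
    nlinarith
  have h6 : (J : ℤ) + C ≤ -y := le_of_mul_le_mul_left h5 hp'
  have h7 : (L : ℤ) ≤ J := by exact_mod_cast hL
  omega

theorem act_AI_eq [CharZero E] (hEVR : Corner.EVRStmt) (φ : E →+* E) (p : ℕ) (hp : 0 < p) (J C : ℕ)
    (b : Fin (n + 1) →₀ ℕ) (hL : K.lv b ≤ J) (x : B3 E) (l s t : ℤ)
    (hl : l ≤ ((C * p : ℕ) : ℤ)) (hs : ((p * (J + C) : ℕ) : ℤ) ≤ -s) :
    act x (phF φ p (K.AI b)) l s t = act x (phF φ p (K.RI 0 b)) l s t := by
  refine act_congr x _ _ l s t fun k u w _ => phF_congr φ p _ _ _ _ _ fun h1 h2 => ?_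
  exact AI_eq_RI K hEVR b _ _ _ (bound_aux p hp J C _ hL l s hl hs u k h1 h2)

theorem act_RI_zero [CharZero E] (hEVR : Corner.EVRStmt) (φ : E →+* E) (p : ℕ) (hp : 0 < p) (J C : ℕ)
    (b : Fin (n + 1) →₀ ℕ) (hL : K.lv b ≤ J) (x : B3 E) (l s t : ℤ)
    (hl : l ≤ ((C * p : ℕ) : ℤ)) (hs : ((p * (J + C) : ℕ) : ℤ) ≤ -s) (j : ℕ) (hj : 1 ≤ j) :
    act x (phF φ p (K.RI j b)) l s t = 0 := by
  have h0 : act x (phF φ p (K.RI j b)) l s t = act x (fun _ _ _ => (0 : E)) l s t := by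
    refine act_congr x _ _ l s t fun k u w _ => ?_
    unfold phF
    by_cases hc : (p : ℤ) ∣ l - u ∧ (p : ℤ) ∣ s - k ∧ (p : ℤ) ∣ t - w
    · rw [if_pos hc, RI_zero K hEVR b _ _ _
        (bound_aux p hp J C _ hL l s hl hs u k hc.1 hc.2.1) j hj, map_zero]
    · rw [if_neg hc]
  rw [h0, act_zero_right]

/-- nothing for negative `l` or `t` -/
theorem act_neg (φ : E →+* E) (p : ℕ) (hp : 0 < p) (F : ℤ → ℤ → ℤ → E)
    (hF : ∀ l s t : ℤ, l < 0 ∨ t < 0 → F l s t = 0) (x : B3 E) (l s t : ℤ)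
    (h : l < 0 ∨ t < 0) : act x (phF φ p F) l s t = 0 := by
  have hp' : (0 : ℤ) < p := by exact_mod_cast hp
  have h0 : act x (phF φ p F) l s t = act x (fun _ _ _ => (0 : E)) l s t := by
    refine act_congr x _ _ l s t fun k u w _ => ?_
    unfold phF
    by_cases hc : (p : ℤ) ∣ l - u ∧ (p : ℤ) ∣ s - k ∧ (p : ℤ) ∣ t - w
    · rw [if_pos hc, hF, map_zero]
      rcases h with h | h
      · left
        exact Int.ediv_neg_of_neg_of_pos (by omega) hp'
      · right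
        exact Int.ediv_neg_of_neg_of_pos (by omega) hp'
    · rw [if_neg hc]
  rw [h0, act_zero_right]

theorem RI_neg (j : ℕ) (b : Fin (n + 1) →₀ ℕ) (l s t : ℤ) (h : l < 0 ∨ t < 0) :
    K.RI j b l s t = 0 := by
  unfold Corner.RI
  rw [if_neg]
  rintro ⟨_, h1, h2⟩
  omega

theorem Rc_sub [CharZero E] (hRC : RCStmt) (j : ℕ) (N : ℤ) (r s : RatFunc E) (p m : ℕ) :
    Rc j N (r - (p : RatFunc E) ^ m * s) = Rc j N r - (p : E) ^ m * Rc j N s := by
  obtain ⟨h1, h2, -⟩ := hRC E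
  have h3 : r - (p : RatFunc E) ^ m * s = r + RatFunc.C (-(p : E) ^ m) * s := by
    rw [map_neg, map_pow, map_natCast]
    ring
  rw [h3, h1, h2]
  ring

end

end F_FROB

open F_FROB in
theorem frob_thm (hCFJ : Corner.CFJStmt) (hAFR : Corner.AFRStmt) (hSEC : Corner.SECStmt)
    (hRRPA : Corner.RRPAStmt) (hRJP : Corner.RJPStmt) (hINTP : INTPStmt) (hRSC : RSCStmt)
    (hRC : RCStmt) (hEVR : Corner.EVRStmt) (hMPP : Corner.MPPStmt) (hPAC : PACStmt)
    (hRHO : Corner.RHOStmt) : Corner.FROBStmt := by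
  intro X E _ _ A hA n K J hJ C3
  obtain ⟨c1, h1⟩ := hRRPA X E A hA n K C3 J
  obtain ⟨c2, h2⟩ := hRJP X E A hA n K J C3
  obtain ⟨d1, h1'⟩ := h1 (max c1 c2) (le_max_left _ _)
  obtain ⟨d2, h2'⟩ := h2 (max c1 c2) (le_max_right _ _)
  generalize max c1 c2 = c at h1' h2'
  obtain ⟨d, hd1, hd2⟩ : ∃ d, d1 ≤ d ∧ d2 ≤ d := ⟨max d1 d2, le_max_left _ _, le_max_right _ _⟩
  have hq : qq E c K.D ^ n ≠ 0 := by
    refine pow_ne_zero _ ?_
    unfold qq
    refine Finset.prod_ne_zero_iff.2 fun b _ => Finset.prod_ne_zero_iff.2 fun m hm => ?_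
    intro h0
    have h3 := congrArg (fun g : E[X] => g.coeff 1) h0
    simp only [Polynomial.coeff_add, Polynomial.coeff_C_mul, Polynomial.coeff_X_one, mul_one,
      Polynomial.coeff_C_succ, zero_add, Polynomial.coeff_zero] at h3
    rw [Finset.mem_Icc] at hm
    have h4 : m = 0 := by exact_mod_cast h3
    omega
  have h3 := hINTP X E A hA (qq E c K.D ^ n) hq J d ((C3 + J + n + 3 : ℕ) : ℤ)
    ((C3 + J + n + 3) + d + 1 + C3 + 2)
  have h4 := hAFR X E A hA n K J ((C3 + J + n + 3) + d + 1) hJ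
  have h5 := hRHO X E A hA n K J
  refine ((((h1'.and h2').and h3).and h4).and h5).mono ?_
  rintro i ⟨⟨⟨⟨H1, H2⟩, H3⟩, H4⟩, _, H5⟩ a ha hlv l s t hl hs ht
  obtain ⟨hsupp, -⟩ := H5 a ha hlv
  obtain ⟨_, _, hrho, _⟩ := hMPP X E A n K i
  rw [← hrho J a, (hCFJ n E K).1, (hCFJ n E K).2]
  have hp : 0 < X.p i := (X.hp i).pos
  have hpE : (X.p i : E) ≠ 0 := by
    intro h0
    exact hA.p_inv i (by rw [h0, inv_zero]; exact (A.O i).zero_mem)
  have hlvb : ∀ b ∈ (K.rho3 (A.phi i) (X.p i) J a).support, K.lv b ≤ J := fun b hb =>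
    (hsupp b (MvPolynomial.mem_support_iff.1 hb)).2.1
  have H4a := fun N l t h => H4 a N l t ha hlv h
  have H2a := fun (l t : ℤ) (e : ℕ) h h' h'' => H2 a l t e ha hlv h h' h''
  clear H4 H2 hsupp H5 hrho h1 h2 h3 h4 h5 h1' h2'
  generalize K.rho3 (A.phi i) (X.p i) J a = ρ at *
  generalize A.phi i = φ at *
  rw [Finset.sum_sub_distrib]
  have e0 : ∀ x y z w u : E, x - y - z * (w - u) = (x - z * w) - (y - z * u) := by
    intro x y z w u
    ring
  rw [e0]
  have hlva := lv_pos K a ha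
  by_cases hN : -s - 1 ≤ ((((C3 + J + n + 3) + d + 1) * X.p i : ℕ) : ℤ)
  · have F1 := H4a (-s - 1) l t hN
    have es : -(-s - 1) - 1 = s := by ring
    rw [es] at F1
    suffices F2 : A.Dv i J (∑ b ∈ ρ.support, act (MvPolynomial.coeff b ρ)
        (phF φ (X.p i) (K.RI 0 b)) l s t - (X.p i : E) ^ n * K.RI 0 a l s t) by
      have := FUN.dv_add F1 (FUN.dv_neg F2)
      rwa [← sub_eq_add_neg] at this
    by_cases hneg : l < 0 ∨ t < 0
    · rw [RI_neg K 0 a l s t hneg, mul_zero, sub_zero, Finset.sum_eq_zero]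
      · exact FUN.dv_zero
      · intro b _
        exact act_neg φ (X.p i) hp _ (fun l s t h => RI_neg K 0 b l s t h) _ l s t hneg
    · have hl0 : 0 ≤ l := by omega
      have ht0 : 0 ≤ t := by omega
      have hpZ : (0 : ℤ) < X.p i := by exact_mod_cast hp
      obtain ⟨N', e, he, hNe⟩ : ∃ (N' : ℤ) (e : ℕ), e < X.p i ∧ -s - 1 = (X.p i : ℤ) * N' + e := by
        refine ⟨(-s - 1) / X.p i, ((-s - 1) % X.p i).toNat, ?_, ?_⟩
        · have h6 := Int.emod_lt_of_pos (-s - 1) hpZ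
          have h7 := Int.emod_nonneg (-s - 1) hpZ.ne'
          omega
        · rw [Int.toNat_of_nonneg (Int.emod_nonneg _ hpZ.ne')]
          exact (Int.mul_ediv_add_emod _ _).symm
      set r : RatFunc E := K.RJ φ (X.p i) ρ e l t - (X.p i : RatFunc E) ^ n *
        affR (X.p i : E) (e : E) hpE (K.rr (K.lv a) (MvPolynomial.monomial a 1) l.toNat t.toNat)
        with hr
      have hRS := hRSC E
      obtain ⟨-, hRS2, -⟩ := hRS
      have hr0 : ∀ N : ℤ, Rc 0 N r = ∑ b ∈ ρ.support, act (MvPolynomial.coeff b ρ)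
          (phF φ (X.p i) (K.RI 0 b)) l (-((X.p i : ℤ) * N + e) - 1) t -
          (X.p i : E) ^ n * K.RI 0 a l (-((X.p i : ℤ) * N + e) - 1) t := by
        intro N
        have h8 := (hRS2 N (e : ℤ) (X.p i) hpE
          (K.rr (K.lv a) (MvPolynomial.monomial a 1) l.toNat t.toNat)).1
        rw [Int.cast_natCast] at h8
        rw [hr, Rc_sub hRC, hSEC n E K φ (X.p i) hp ρ 0 e N l t, h8]
        congr 2
        unfold Corner.RI
        rw [if_pos ⟨ha, hl0, ht0⟩]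
        congr 1
        ring
      have hbd : ∀ N : ℤ, ((C3 + J + n + 3 : ℕ) : ℤ) ≤ N →
          ((X.p i * (J + C3) : ℕ) : ℤ) ≤ -(-((X.p i : ℤ) * N + e) - 1) ∧
          (K.lv a : ℤ) + l ≤ -(-((X.p i : ℤ) * N + e) - 1) := by
        intro N hN0
        have h9 : (X.p i : ℤ) * ((C3 + J + n + 3 : ℕ) : ℤ) ≤ X.p i * N :=
          mul_le_mul_of_nonneg_left hN0 hpZ.le
        have he0 : (0 : ℤ) ≤ e := Int.natCast_nonneg e
        have h10 : (1 : ℤ) ≤ X.p i := hpZ
        have h11 : (K.lv a : ℤ) ≤ n + 1 := by exact_mod_cast hlv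
        have h12 : (0 : ℤ) ≤ (X.p i : ℤ) * n := by positivity
        have h13 : (n : ℤ) ≤ (X.p i : ℤ) * n := by nlinarith [Int.natCast_nonneg n]
        have h14 : (0 : ℤ) ≤ (X.p i : ℤ) * J := by positivity
        push_cast at h9 hl ⊢
        constructor
        · nlinarith
        · nlinarith
      have hwin : ∀ N : ℤ, ((C3 + J + n + 3 : ℕ) : ℤ) ≤ N → N ≤ ((C3 + J + n + 3 : ℕ) : ℤ) + d →
          A.Dv i J (Rc 0 N r) ∧ ∀ j, 1 ≤ j → Rc j N r = 0 := by
        intro N hN0 hN1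
        obtain ⟨hb1, hb2⟩ := hbd N hN0
        constructor
        · rw [hr0 N, ← AI_eq_RI K hEVR a l _ t hb2, Finset.sum_congr rfl fun b hb =>
            (act_AI_eq K hEVR φ (X.p i) hp J C3 b (hlvb b hb) _ l _ t hl hb1).symm]
          refine H4a ((X.p i : ℤ) * N + e) l t ?_
          have h15 : (X.p i : ℤ) * N ≤ X.p i * (((C3 + J + n + 3 : ℕ) : ℤ) + d) :=
            mul_le_mul_of_nonneg_left hN1 hpZ.le
          have he1 : (e : ℤ) ≤ X.p i := by exact_mod_cast he.le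
          push_cast at h15 ⊢
          nlinarith
        · intro j hj
          have h8 := (hRS2 N (e : ℤ) (X.p i) hpE
            (K.rr (K.lv a) (MvPolynomial.monomial a 1) l.toNat t.toNat)).2 j
          rw [Int.cast_natCast] at h8
          rw [hr, Rc_sub hRC, hSEC n E K φ (X.p i) hp ρ j e N l t, h8, mul_zero, sub_zero,
            Finset.sum_eq_zero]
          · intro b hb
            exact act_RI_zero K hEVR φ (X.p i) hp J C3 b (hlvb b hb) _ l _ t hl hb1 j hj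
          · refine (hEVR n E K (K.lv a) l.toNat t.toNat (MvPolynomial.monomial a 1)
              ((X.p i : ℤ) * N + e) hlva ?_).2 j hj
            omega
      have hPAr : PA A i J d (algebraMap E[X] (RatFunc E) (qq E c K.D ^ n) * r) := by
        obtain ⟨padd, pmul, pmono, ppol, pC, -⟩ := hPAC X E A hA i J
        obtain ⟨g, hg, hgd, hge⟩ := H2a l t e hl ht he
        have h16 := H1 a l.toNat t.toNat e hpE ha hlv (by omega) (by omega) he
        have h17 : algebraMap E[X] (RatFunc E) (qq E c K.D ^ n) * r =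
            algebraMap E[X] (RatFunc E) g + RatFunc.C (-1) *
              (algebraMap E[X] (RatFunc E) (qq E c K.D) ^ n * ((X.p i : RatFunc E) ^ n *
              affR (X.p i : E) (e : E) hpE
                (K.rr (K.lv a) (MvPolynomial.monomial a 1) l.toNat t.toNat))) := by
          have h19 : (RatFunc.C (-1 : E) : RatFunc E) = -1 := by rw [map_neg, map_one]
          rw [← hge, hr, map_pow, h19]
          ring
        rw [h17]
        refine padd _ _ _ (ppol g d hg (hgd.trans hd2)) ?_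
        have h18 := pmul 0 d1 _ _ (pC (-1) ((A.O i).neg_mem (A.O i).one_mem)) h16
        exact pmono _ _ _ (by omega) h18
      have hfin := H3 r hPAr hwin N' ?_
      · rw [hr0 N', ← hNe, es] at hfin
        exact hfin
      · have hNl : ((X.p i : ℤ)) * N' ≤ X.p i * (((C3 + J + n + 3) + d + 1 : ℕ) : ℤ) := by
          have he0 : (0 : ℤ) ≤ e := Int.natCast_nonneg e
          push_cast at hN ⊢
          nlinarith
        have hN1 := le_of_mul_le_mul_left hNl hpZ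
        have hNg : (X.p i : ℤ) * (-(C3 : ℤ) - 2) ≤ X.p i * N' := by
          have he1 : (e : ℤ) < X.p i := by exact_mod_cast he
          push_cast at hs
          nlinarith
        have hN2 := le_of_mul_le_mul_left hNg hpZ
        rw [abs_le]
        push_cast at hN1 ⊢
        constructor <;> omega
  · have hs1 : ((X.p i * (J + C3) : ℕ) : ℤ) ≤ -s ∧ (K.lv a : ℤ) + l ≤ -s := by
      rw [not_le] at hN
      have hpZ : (0 : ℤ) < X.p i := by exact_mod_cast hp
      have h10 : (1 : ℤ) ≤ X.p i := hpZ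
      have h11 : (K.lv a : ℤ) ≤ n + 1 := by exact_mod_cast hlv
      have h12 : (0 : ℤ) ≤ (X.p i : ℤ) * n := by positivity
      have h13 : (n : ℤ) ≤ (X.p i : ℤ) * n := by nlinarith [Int.natCast_nonneg n]
      have h14 : (0 : ℤ) ≤ (X.p i : ℤ) * J := by positivity
      have h15 : (0 : ℤ) ≤ (X.p i : ℤ) * d := by positivity
      push_cast at hN hl ⊢
      constructor
      · nlinarith
      · nlinarith
    rw [AI_eq_RI K hEVR a l s t hs1.2, Finset.sum_congr rfl fun b hb =>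
      act_AI_eq K hEVR φ (X.p i) hp J C3 b (hlvb b hb) _ l s t hl hs1.1, sub_self]
    exact FUN.dv_zero

end Pool.CUBE
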