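import Pool.Agent.H38.CUBE.JJStmts2
import Pool.Agent.H31.CUBE.J_LIN

/-!
# MP_47888e_al, block CONT/JJ, part 2: module JPR
-/

set_option autoImplicit false

open Polynomial

namespace Pool.CUBE

open Pool.CM Pool.H93.Cube

namespace F_JPR

theorem rel0 (hR : Corner.JJRELStmt) {n : ℕ} {E : Type} [Field E] [CharZero E]
    (K : Corner n E) (j : ℕ) {g : Poly n (F3 E)} (hg : g ∈ Rel K.P) : K.JJ j g = 0 := by
  rw [Rel] at hg
  refine Submodule.iSup_induction _ (motive := fun x => K.JJ j x = 0) hg ?_ ?_ ?_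
  · rintro i _ ⟨h', rfl⟩
    exact hR n E K j i h'
  · exact map_zero _
  · intro x y hx hy
    rw [map_add, hx, hy, add_zero]

theorem jjp_smul {n : ℕ} {E : Type} [Field E] (K : Corner n E) (φ : E →+* E) (p : ℕ)
    (hp : 0 < p) (x : F3 E) (g : Poly n (F3 E)) :
    K.JJp φ p hp (x • g) = ex3 E x * K.JJp φ p hp g := by
  by_cases hx : x = 0
  · subst hx
    rw [zero_smul, map_zero, map_zero, zero_mul]
  · change ∑ a ∈ (x • g).support, ex3 E ((x • g).coeff a) * phiT φ p hp (K.del 0 a) =
      ex3 E x * ∑ a ∈ g.support, ex3 E (g.coeff a) * phiT φ p hp (K.del 0 a)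
    rw [J_LIN.supp_smul x hx g, Finset.mul_sum]
    refine Finset.sum_congr rfl fun a _ => ?_
    rw [MvPolynomial.coeff_smul, smul_eq_mul, map_mul, mul_assoc]

theorem jjp_mono {n : ℕ} {E : Type} [Field E] (K : Corner n E) (φ : E →+* E) (p : ℕ)
    (hp : 0 < p) (a : Fin (n + 1) →₀ ℕ) :
    K.JJp φ p hp (MvPolynomial.monomial a 1) =
      phiT φ p hp (K.JJ 0 (MvPolynomial.monomial a 1)) := by
  classical
  have hs : (MvPolynomial.monomial a (1 : F3 E)).support = {a} := by
    rw [MvPolynomial.support_monomial, if_neg one_ne_zero]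
  have h1 : K.JJp φ p hp (MvPolynomial.monomial a 1) =
      ∑ b ∈ (MvPolynomial.monomial a (1 : F3 E)).support,
        ex3 E ((MvPolynomial.monomial a (1 : F3 E)).coeff b) * phiT φ p hp (K.del 0 b) := rfl
  have h2 : K.JJ 0 (MvPolynomial.monomial a 1) =
      ∑ b ∈ (MvPolynomial.monomial a (1 : F3 E)).support,
        ex3 E ((MvPolynomial.monomial a (1 : F3 E)).coeff b) * K.del 0 b := rfl
  rw [h1, h2, hs, Finset.sum_singleton, Finset.sum_singleton, MvPolynomial.coeff_monomial,
    if_pos rfl, map_one, one_mul, one_mul]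

end F_JPR

open F_JPR in
theorem jpr_thm (hPHT : PHTStmt) (hREL : Corner.JJRELStmt) (hLIN : Corner.LINStmt)
    (hLV : Corner.JJLVStmt) : Corner.JPRStmt := by
  classical
  intro X E _ _ A i n K
  refine ⟨jjp_smul K _ _ _, fun N _ _ b l co hco g => ?_⟩
  have hmono : ∀ a : Fin (n + 1) →₀ ℕ,
      ∑ c, phiT (A.phi i) (X.p i) (X.hp i).pos (K.JJ 0 (b c)) *
        ex3 E (coF (A.ext.ext.ext.phi i) co (MvPolynomial.monomial a 1) c) =
      K.JJp (A.phi i) (X.p i) (X.hp i).pos (MvPolynomial.monomial a 1) := by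
    intro a
    have h0 : K.JJ 0 (MvPolynomial.monomial a 1) =
        ∑ c, K.JJ 0 (b c) * ex3 E (co (MvPolynomial.monomial a 1) c) := by
      by_cases ha : K.D ∣ a.degree + (n + 1)
      · have hw : WtD K.D (MvPolynomial.monomial a (1 : F3 E)) := by
          intro c hc
          rw [MvPolynomial.coeff_monomial] at hc
          by_cases hac : a = c
          · rw [← hac]
            exact ha
          · rw [if_neg hac] at hc
            exact absurd rfl hc
        have h1 := rel0 hREL K 0 (hco.span _ hw)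
        rw [map_sub, sub_eq_zero, map_sum] at h1
        rw [h1]
        refine Finset.sum_congr rfl fun c _ => ?_
        rw [hLIN n E K 0, mul_comm]
      · rw [hLV n E K 0 1 a ha, hco.nd a ha]
        symm
        refine Finset.sum_eq_zero fun c _ => ?_
        rw [Pi.zero_apply, map_zero, mul_zero]
    rw [jjp_mono, h0, map_sum]
    refine Finset.sum_congr rfl fun c _ => ?_
    rw [map_mul, hPHT X E A i]
    congr 2
    unfold coF
    rw [linMon_monomial, one_smul]
  have hg : g = ∑ a ∈ g.support, MvPolynomial.coeff a g •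
      (MvPolynomial.monomial a (1 : F3 E)) := by
    conv_lhs => rw [g.as_sum]
    refine Finset.sum_congr rfl fun a _ => ?_
    rw [MvPolynomial.smul_monomial, smul_eq_mul, mul_one]
  have hR : K.JJp (A.phi i) (X.p i) (X.hp i).pos g = ∑ a ∈ g.support,
      ex3 E (MvPolynomial.coeff a g) *
        ∑ c, phiT (A.phi i) (X.p i) (X.hp i).pos (K.JJ 0 (b c)) *
        ex3 E (coF (A.ext.ext.ext.phi i) co (MvPolynomial.monomial a 1) c) := by
    conv_lhs => rw [hg]
    rw [map_sum]
    refine Finset.sum_congr rfl fun a _ => ?_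
    rw [jjp_smul, hmono a]
  have hL : ∀ c, coF (A.ext.ext.ext.phi i) co g c = ∑ a ∈ g.support,
      MvPolynomial.coeff a g * coF (A.ext.ext.ext.phi i) co (MvPolynomial.monomial a 1) c := by
    intro c
    conv_lhs => rw [hg]
    rw [map_sum, Finset.sum_apply]
    refine Finset.sum_congr rfl fun a _ => ?_
    rw [map_smul, Pi.smul_apply, smul_eq_mul]
  rw [hR]
  have hL2 : ∀ c, phiT (A.phi i) (X.p i) (X.hp i).pos (K.JJ 0 (b c)) *
      ex3 E (coF (A.ext.ext.ext.phi i) co g c) = ∑ a ∈ g.support,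
        ex3 E (MvPolynomial.coeff a g) * (phiT (A.phi i) (X.p i) (X.hp i).pos (K.JJ 0 (b c)) *
        ex3 E (coF (A.ext.ext.ext.phi i) co (MvPolynomial.monomial a 1) c)) := by
    intro c
    rw [hL c, map_sum, Finset.mul_sum]
    refine Finset.sum_congr rfl fun a _ => ?_
    rw [map_mul]
    ring
  rw [Finset.sum_congr rfl fun c _ => hL2 c, Finset.sum_comm]
  refine Finset.sum_congr rfl fun a _ => ?_
  rw [Finset.mul_sum]

end Pool.CUBE
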