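import Pool.Agent.H38.CUBE.JJStmts2
import Pool.Agent.H38.CUBE.JJAct
import Pool.Agent.H41.CUBE.TAll
import Pool.Agent.H74.CUBE.J_JJIOTA

/-!
# MP_47888e_al, block CONT/JJ, part 2: module MCJ
-/

set_option autoImplicit false

open Polynomial

namespace Pool.CUBE

open Pool.CM Pool.H93.Cube

namespace F_MCJ

theorem SigP_hom (n : ℕ) (A : Type) [CommRing A] : (SigP n A).IsHomogeneous 1 := by
  unfold SigP
  exact MvPolynomial.IsHomogeneous.sum _ _ _ fun i _ => MvPolynomial.isHomogeneous_X A i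

theorem P0_hom {n : ℕ} {E : Type} [Field E] (K : Corner n E) : K.P0.IsHomogeneous K.D := by
  unfold Corner.P0
  refine MvPolynomial.IsHomogeneous.sub ?_ ?_
  · have h1 := (MvPolynomial.isHomogeneous_C (Fin (n + 1))
      (RatFunc.X : RatFunc (RatFunc E))).mul ((SigP_hom n (RatFunc (RatFunc E))).pow K.D)
    rwa [zero_add, one_mul] at h1
  · refine MvPolynomial.IsHomogeneous.sum _ _ _ fun k _ => ?_
    have h1 := (MvPolynomial.isHomogeneous_C (Fin (n + 1))
      (RatFunc.C (RatFunc.X : RatFunc E) ^ k : RatFunc (RatFunc E))).mul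
      ((J_JJIOTA.G_homog K k).map (Corner.cF2 E))
    rwa [zero_add] at h1

theorem cf3_pow_mul {E : Type} [Field E] (p m : ℕ) (y : T3 E) (l s t : ℤ) :
    cf3 ((p : T3 E) ^ m * y) l s t = (p : E) ^ m * cf3 y l s t := by
  have h1 : ∀ y : T3 E, cf3 ((p : T3 E) * y) l s t = (p : E) * cf3 y l s t := by
    intro y
    rw [← nsmul_eq_mul, ← nsmul_eq_mul]
    exact map_nsmul (cf3H E l s t) p y
  induction m with
  | zero => rw [pow_zero, pow_zero, one_mul, one_mul]
  | succ m ih => rw [pow_succ', pow_succ', mul_assoc, h1, ih, mul_assoc]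

theorem iota3 {X : Idx} {E : Type} [Field E] (A : PF X E) (hA : A.Ax) (x : F3 E) :
    ((((FUN.TG.base A hA).lau All.xph).lau All.xph).lau All.xph).ι x = ex3 E x := by
  have h1 : ((FUN.TG.base A hA).lau All.xph).ι = ex E := by
    apply RingHom.ext
    intro y
    apply HahnSeries.ext
    funext k
    rfl
  have h2 : (((FUN.TG.base A hA).lau All.xph).lau All.xph).ι =
      (cmapR (ex E)).comp (ex (RatFunc E)) := by
    apply RingHom.ext
    intro y
    apply HahnSeries.ext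
    funext k
    change ((FUN.TG.base A hA).lau All.xph).ι ((ex (RatFunc E) y).coeff k) =
      ex E ((ex (RatFunc E) y).coeff k)
    rw [h1]
  apply HahnSeries.ext
  funext k
  change (((FUN.TG.base A hA).lau All.xph).lau All.xph).ι
    ((ex (RatFunc (RatFunc E)) x).coeff k) =
      ((cmapR (ex E)).comp (ex (RatFunc E))) ((ex (RatFunc (RatFunc E)) x).coeff k)
  rw [h2]

end F_MCJ

open F_MCJ in
theorem mcj_thm (hFROB : Corner.FROBStmt) (hFROE : Corner.FROEStmt) (hJPR : Corner.JPRStmt) :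
    Corner.MCJStmt := by
  classical
  intro X E _ _ A hA n K N _ _ b l co hco hb J hJ
  have hA1 : A.ext.Ax := All.ext X E A hA
  have hA2 : A.ext.ext.Ax := All.ext X (RatFunc E) A.ext hA1
  have hA3 : A.ext.ext.ext.Ax := All.ext X (RatFunc (RatFunc E)) A.ext.ext hA2
  obtain ⟨hhom, hred, -⟩ := TAll.tferm (RatFunc (RatFunc E)) n K.D K.hD K.P0 (P0_hom K)
  obtain ⟨C0, hC0⟩ := TAll.cpx X (F3 E) A.ext.ext.ext hA3 n K.D K.hD K.P hhom
    (fun m _ => hred m) N b l co hco J hJ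
  obtain ⟨s, hs⟩ : ∃ s : ℕ, s = (Finset.univ : Finset (N × N)).card := ⟨_, rfl⟩
  refine ⟨s * C0, fun C3 => ?_⟩
  refine (hC0.and ((hFROB X E A hA n K J hJ (C3 + s * C0)).and
    (hFROE X E A hA n K J hJ (C3 + s * C0)))).mono ?_
  rintro i ⟨⟨hB, -⟩, hF, hFe⟩
  obtain ⟨h1, hh1, hh1P⟩ := FUN.cdt hA3 i (C0 * X.p i) (Finset.univ : Finset (N × N))
    (fun x => matB (X.p i) K.D J (A.ext.ext.ext.phi i) K.P b co x.1 x.2)
    (fun x _ => hB x.1 x.2)
  have hsC : (Finset.univ : Finset (N × N)).card * (C0 * X.p i) = s * C0 * X.p i := by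
    rw [hs]
    ring
  rw [hsC] at hh1 hh1P
  refine ⟨h1, hh1, fun u v => hh1P (v, u) (Finset.mem_univ _), fun u => ?_⟩
  have hrow := (hJPR X E A i n K).2 N b l co hco
    (rhoE (X.p i) K.D J (A.ext.ext.ext.phi i) K.P (b u))
  have hval : ∀ l' s' t' : ℤ, l' ≤ (((C3 + s * C0) * X.p i : ℕ) : ℤ) →
      s' ≤ (((C3 + s * C0) * X.p i : ℕ) : ℤ) → t' ≤ (((C3 + s * C0) * X.p i : ℕ) : ℤ) →
      A.Dv i J (cf3 (K.JJp (A.phi i) (X.p i) (X.hp i).pos
        (rhoE (X.p i) K.D J (A.ext.ext.ext.phi i) K.P (b u))) l' s' t' -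
        (X.p i : E) ^ n * cf3 (K.JJ 0 (b u)) l' s' t') := by
    rcases hb u with hu | ⟨a, hu⟩
    · rw [hu]
      exact hFe
    · rw [hu]
      have hwt := hco.lb u a (by rw [hu, MvPolynomial.coeff_monomial, if_pos rfl]; exact one_ne_zero)
      have hl := hco.l1 u
      refine hF a ⟨l u, hwt⟩ ?_
      unfold Corner.lv
      rw [hwt, Nat.mul_div_cancel_left _ K.hD]
      exact hl.2
  have hz : (∑ c, ((((FUN.TG.base A hA).lau All.xph).lau All.xph).lau All.xph).φ i
      (K.JJ 0 (b c)) * ((((FUN.TG.base A hA).lau All.xph).lau All.xph).lau All.xph).ι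
        ((matB (X.p i) K.D J (A.ext.ext.ext.phi i) K.P b co).transpose u c) -
      (X.p i : T3 E) ^ n * K.JJ 0 (b u)) ∈
      ((((FUN.TG.base A hA).lau All.xph).lau All.xph).lau All.xph).Z i J
        (((C3 + s * C0) * X.p i : ℕ) : ℤ) := by
    have e1 : (∑ c, ((((FUN.TG.base A hA).lau All.xph).lau All.xph).lau All.xph).φ i
        (K.JJ 0 (b c)) * ((((FUN.TG.base A hA).lau All.xph).lau All.xph).lau All.xph).ι
        ((matB (X.p i) K.D J (A.ext.ext.ext.phi i) K.P b co).transpose u c)) =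
        K.JJp (A.phi i) (X.p i) (X.hp i).pos
          (rhoE (X.p i) K.D J (A.ext.ext.ext.phi i) K.P (b u)) := by
      rw [← hrow]
      refine Finset.sum_congr rfl fun c _ => ?_
      rw [iota3 A hA]
      rfl
    rw [e1]
    intro l' hl' s' hs' t' ht'
    have e2 := hval l' s' t' hl' hs' ht'
    rw [← cf3_pow_mul, ← cf3_sub] at e2
    exact e2
  have hfin := ((((FUN.TG.base A hA).lau All.xph).lau All.xph).lau All.xph).pol i J _
    (s * C0 * X.p i) h1 _ (hA3.den_pol i _ _ hh1) hz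
  have e3 : (((C3 + s * C0) * X.p i : ℕ) : ℤ) - ((s * C0 * X.p i : ℕ) : ℤ) =
      (C3 : ℤ) * X.p i := by
    push_cast
    ring
  rw [e3] at hfin
  exact hfin

end Pool.CUBE
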