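import Pool.Agent.H38.CUBE.JJDefs2
import Pool.Agent.H41.CUBE.JStmts
import Pool.Agent.H10.CM.All

/-!
# MP_47888e_al, block CONT/JJ: statements of the modules, part 2 (Frobenius)
-/

set_option autoImplicit false

open Polynomial

namespace Pool.CUBE

open Pool.CM Pool.H93.Cube

/-! ### rational functions of `N` -/

/-- substitutions and expansions of rational functions -/
def RSCStmt : Prop := ∀ (E : Type) [Field E] [CharZero E],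
  (∀ (N k e : ℤ) (p : ℕ) (h : (p : E) ≠ 0) (r : RatFunc E),
    (lexp N (affR (p : E) (e : E) h r)).coeff k = (p : E) ^ k * (lexp (p * N + e) r).coeff k) ∧
  (∀ (N e : ℤ) (p : ℕ) (h : (p : E) ≠ 0) (r : RatFunc E),
    Rc 0 N (affR (p : E) (e : E) h r) = Rc 0 (p * N + e) r ∧
    ∀ j : ℕ, Rc j (p * N + e) r = 0 → Rc j N (affR (p : E) (e : E) h r) = 0) ∧
  (∀ (φ : E →+* E) (N k : ℤ) (r : RatFunc E),
    (lexp N (mapR φ r)).coeff k = φ ((lexp N r).coeff k)) ∧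
  (∀ (φ : E →+* E) (j : ℕ) (N : ℤ) (r : RatFunc E), Rc j N (mapR φ r) = φ (Rc j N r)) ∧
  (∀ (φ : E →+* E) (k : ℤ) (r : RatFunc E), mapR φ (affR 1 (k : E) one_ne_zero r) =
    affR 1 (k : E) one_ne_zero (mapR φ r)) ∧
  (∀ (φ : E →+* E) (g : E[X]), mapR φ (algebraMap E[X] (RatFunc E) g) =
    algebraMap E[X] (RatFunc E) (g.map φ)) ∧
  (∀ (φ : E →+* E) (c D : ℕ), (qq E c D).map φ = qq E c D) ∧
  (∀ (u v u' v' : E) (h : u ≠ 0) (h' : u' ≠ 0) (h'' : u * u' ≠ 0) (r : RatFunc E),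
    affR u' v' h' (affR u v h r) = affR (u * u') (u * v' + v) h'' r)

/-- closure properties of `Rint` and `PA` -/
def PACStmt : Prop := ∀ (X : Idx) (E : Type) [Field E] [CharZero E] (A : PF X E), A.Ax →
  ∀ (i : X.I) (M : ℕ),
  (∀ d r s, PA A i M d r → PA A i M d s → PA A i M d (r + s)) ∧
  (∀ d d' r s, PA A i M d r → PA A i M d' s → PA A i M (d + d') (r * s)) ∧
  (∀ d d' r, d ≤ d' → PA A i M d r → PA A i M d' r) ∧
  (∀ (g : E[X]) (d : ℕ), A.Int i g → g.natDegree ≤ d →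
    PA A i M d (algebraMap E[X] (RatFunc E) g)) ∧
  (∀ x : E, x ∈ A.O i → PA A i M 0 (RatFunc.C x)) ∧
  (∀ b m : ℤ, ¬ (X.p i : ℤ) ∣ b → PA A i M M
    (((b : RatFunc E) + (X.p i : RatFunc E) * (m : RatFunc E) * RatFunc.X)⁻¹)) ∧
  (∀ (d : ℕ) (ι : Type) (s : Finset ι) (f : ι → RatFunc E), (∀ x ∈ s, PA A i M d (f x)) →
    PA A i M d (∑ x ∈ s, f x)) ∧
  (∀ (d s : ℕ) (f : Fin s → RatFunc E), (∀ x, PA A i M d (f x)) →
    PA A i M (s * d) (∏ x, f x)) ∧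
  (∀ r s, r ∈ Rint A i → s ∈ Rint A i →
    r + s ∈ Rint A i ∧ r * s ∈ Rint A i ∧ -r ∈ Rint A i) ∧
  (∀ d r, PA A i M d r → r ∈ Rint A i)

/-- `binom (p X + f, j)`, `j ≤ C p`, `C < p` -/
def BPXStmt : Prop := ∀ (X : Idx) (E : Type) [Field E] [CharZero E] (A : PF X E), A.Ax →
  ∀ (i : X.I) (C M : ℕ), C < X.p i → ∀ (f : ℤ) (j : ℕ) (h : (X.p i : E) ≠ 0),
    j ≤ C * X.p i → PA A i M (C + 1 + M) (affR (X.p i : E) (f : E) h (binR E j))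

/-- one factor of the Mellin transform: `p / (B + m (p X + f))` -/
def MLFStmt : Prop := ∀ (X : Idx) (E : Type) [Field E] [CharZero E] (A : PF X E), A.Ax →
  ∀ (i : X.I) (C D M c : ℕ), C < X.p i → C * (1 + D) ≤ c →
  ∀ (B m : ℕ) (f : ℤ) (h : (X.p i : E) ≠ 0), 1 ≤ B → B ≤ C * X.p i →
    |f| ≤ ((C * X.p i : ℕ) : ℤ) → m ≤ D →
    PA A i M ((2 * c + 1) * D + M) (algebraMap E[X] (RatFunc E) (qq E c D) *
      ((X.p i : RatFunc E) * affR (X.p i : E) (f : E) h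
        (((B : RatFunc E) + (m : RatFunc E) * RatFunc.X)⁻¹)))

/-- the Mellin transform of an integral polynomial -/
def MPAStmt : Prop := ∀ (X : Idx) (E : Type) [Field E] [CharZero E] (A : PF X E), A.Ax →
  ∀ (i : X.I) (n C D M c : ℕ), C < X.p i → C * (1 + D) ≤ c →
  ∀ μ : Fin n →₀ ℕ, μ.degree ≤ D → ∀ (f : ℤ) (h : (X.p i : E) ≠ 0),
    |f| ≤ ((C * X.p i : ℕ) : ℤ) → ∀ g : MvPolynomial (Fin n) E,
    (∀ γ, MvPolynomial.coeff γ g ∈ A.O i) →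
    (∀ γ, MvPolynomial.coeff γ g ≠ 0 → γ.degree + n ≤ C * X.p i) →
    PA A i M (n * ((2 * c + 1) * D + M)) (algebraMap E[X] (RatFunc E) (qq E c D) ^ n *
      ((X.p i : RatFunc E) ^ n * affR (X.p i : E) (f : E) h (Mell μ g)))

/-- INTERPOLATION: small values on a window of integers give small values everywhere -/
def INTPStmt : Prop := ∀ (X : Idx) (E : Type) [Field E] [CharZero E] (A : PF X E), A.Ax →
  ∀ Q : E[X], Q ≠ 0 → ∀ (M d : ℕ) (N0 : ℤ) (C1 : ℕ), X.Ev fun i => ∀ r : RatFunc E,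
    PA A i M d (algebraMap E[X] (RatFunc E) Q * r) →
    (∀ N : ℤ, N0 ≤ N → N ≤ N0 + d → A.Dv i M (Rc 0 N r) ∧ ∀ j, 1 ≤ j → Rc j N r = 0) →
    ∀ N : ℤ, |N| ≤ (C1 : ℤ) → A.Dv i M (Rc 0 N r)

/-! ### the rings `E[τ][λ]`, `E[τ][λ][σ]` -/

/-- the Frobenius lift of `O[τ][λ]` -/
def FROStmt : Prop := ∀ (X : Idx) (E : Type) [Field E] [CharZero E] (A : PF X E), A.Ax →
  ∀ i : X.I,
  (∀ x ∈ O2 (A.O i), phB2 (A.phi i) (X.p i) x ∈ O2 (A.O i)) ∧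
  (∀ x ∈ O2 (A.O i), ∃ y ∈ O2 (A.O i),
    phB2 (A.phi i) (X.p i) x = x ^ X.p i + (X.p i : B2 E) * y) ∧
  (∀ m : ℕ, ¬ X.p i ∣ m → algebraMap ℚ (B2 E) ((m : ℚ)⁻¹) ∈ O2 (A.O i)) ∧
  (∀ (x : B2 E) (u w : ℕ), ((phB2 (A.phi i) (X.p i) x).coeff u).coeff w =
    if X.p i ∣ u ∧ X.p i ∣ w then A.phi i ((x.coeff (u / X.p i)).coeff (w / X.p i)) else 0)

/-- coefficients of `ex3 x * y` and of `phiT y` -/
def ACTStmt : Prop := ∀ (E : Type) [Field E],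
  (∀ (x : B3 E) (y : T3 E) (l s t : ℤ),
    cf3 (ex3 E (kB3 E x) * y) l s t = act x (cf3 y) l s t) ∧
  (∀ (φ : E →+* E) (p : ℕ) (hp : 0 < p) (y : T3 E), cf3 (phiT φ p hp y) = phF φ p (cf3 y))

/-- expansion and Frobenius -/
def PHTStmt : Prop := ∀ (X : Idx) (E : Type) [Field E] (A : PF X E) (i : X.I) (x : F3 E),
  phiT (A.phi i) (X.p i) (X.hp i).pos (ex3 E x) = ex3 E (A.ext.ext.ext.phi i x)

namespace Corner

variable {n : ℕ} {E : Type} [Field E]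

/-- `X₁` is homogeneous; integral for almost all places -/
def X1HStmt : Prop := ∀ (X : Idx) (E : Type) [Field E] [CharZero E] (A : PF X E), A.Ax →
  ∀ (n : ℕ) (K : Corner n E), K.X1.IsHomogeneous K.D ∧
    X.Ev fun i => ∀ b, MvPolynomial.coeff b K.X1 ∈ O2 (A.O i)

/-- the coefficients of helper41's functional `aN` of `X₁` are the coefficients `Ainf` -/
def IOJStmt : Prop := ∀ (n : ℕ) (E : Type) [Field E] [CharZero E] (K : Corner n E)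
  (a : Fin (n + 1) →₀ ℕ) (N : ℕ), K.D ∣ a.degree + (n + 1) → ∀ l t : ℕ,
  ((aN K.D K.X1 N (MvPolynomial.monomial a 1)).coeff l).coeff t =
    K.Ainf (K.lv a) (MvPolynomial.monomial a 1) l t N

/-- from `E[τ][λ][σ]` to `E(τ)(σ)(λ)` -/
def MPPStmt : Prop := ∀ (X : Idx) (E : Type) [Field E] [CharZero E] (A : PF X E) (n : ℕ)
  (K : Corner n E) (i : X.I),
  MvPolynomial.map (kB3 E) K.P3 = K.P ∧
  (∀ x : B3 E, A.ext.ext.ext.phi i (kB3 E x) = kB3 E (phB3 (A.phi i) (X.p i) x)) ∧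
  (∀ (J : ℕ) (a : Fin (n + 1) →₀ ℕ),
    MvPolynomial.map (kB3 E) (K.rho3 (A.phi i) (X.p i) J a) =
      rhoE (X.p i) K.D J (A.ext.ext.ext.phi i) K.P (MvPolynomial.monomial a 1)) ∧
  Function.Injective (kB3 E)

/-- `ρ (z ^ a)` over `E[τ][λ][σ]`: levels, degree in `σ`, integrality -/
def RHOStmt : Prop := ∀ (X : Idx) (E : Type) [Field E] [CharZero E] (A : PF X E), A.Ax →
  ∀ (n : ℕ) (K : Corner n E) (J : ℕ), X.Ev fun i =>
  (K.P3 ^ X.p i = MvPolynomial.expand (X.p i)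
      (MvPolynomial.map (phB3 (A.phi i) (X.p i)) K.P3) +
    ((X.p i : ℕ) : Poly n (B3 E)) * K.EL3 (A.phi i) (X.p i)) ∧
  ∀ a : Fin (n + 1) →₀ ℕ, K.D ∣ a.degree + (n + 1) → K.lv a ≤ n + 1 →
    (∀ b, MvPolynomial.coeff b (K.rho3 (A.phi i) (X.p i) J a) ≠ 0 →
      K.D ∣ b.degree + (n + 1) ∧ K.lv b ≤ J ∧
      ∀ k, (MvPolynomial.coeff b (K.rho3 (A.phi i) (X.p i) J a)).coeff k ≠ 0 →
        k + K.lv a ≤ X.p i * K.lv b) ∧
    (∀ b k, (MvPolynomial.coeff b (K.rho3 (A.phi i) (X.p i) J a)).coeff k ∈ O2 (A.O i))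

/-- FIRST PART of the Frobenius compatibility: the functional at infinity (from `JFSStmt`) -/
def AFRStmt : Prop := ∀ (X : Idx) (E : Type) [Field E] [CharZero E] (A : PF X E), A.Ax →
  ∀ (n : ℕ) (K : Corner n E) (J C : ℕ), 1 ≤ J → X.Ev fun i =>
  ∀ (a : Fin (n + 1) →₀ ℕ) (N l t : ℤ), K.D ∣ a.degree + (n + 1) → K.lv a ≤ n + 1 →
    N ≤ ((C * X.p i : ℕ) : ℤ) →
    A.Dv i J (∑ b ∈ (K.rho3 (A.phi i) (X.p i) J a).support,
      act (MvPolynomial.coeff b (K.rho3 (A.phi i) (X.p i) J a))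
        (phF (A.phi i) (X.p i) (K.AI b)) l (-N - 1) t -
      (X.p i : E) ^ n * K.AI a l (-N - 1) t)

/-- the values of the rational functions `RJ` -/
def SECStmt : Prop := ∀ (n : ℕ) (E : Type) [Field E] [CharZero E] (K : Corner n E)
  (φ : E →+* E) (p : ℕ), 0 < p → ∀ (g : Poly n (B3 E)) (j e : ℕ) (N' l t : ℤ),
  Rc j N' (K.RJ φ p g e l t) = ∑ b ∈ g.support,
    act (MvPolynomial.coeff b g) (phF φ p (K.RI j b)) l (-((p : ℤ) * N' + e) - 1) t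

/-- integrality and degrees of the numerators in `rr` -/
def HINStmt : Prop := ∀ (X : Idx) (E : Type) [Field E] [CharZero E] (A : PF X E), A.Ax →
  ∀ (n : ℕ) (K : Corner n E), X.Ev fun i => ∀ (a : Fin (n + 1) →₀ ℕ) (l j t : ℕ)
    (γ : Fin n →₀ ℕ),
    MvPolynomial.coeff γ (zc (MvPolynomial.monomial a 1 * fer n K.D E ^ l) *
      (K.w ^ j).coeff t) ∈ A.O i ∧
    (MvPolynomial.coeff γ (zc (MvPolynomial.monomial a 1 * fer n K.D E ^ l) *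
      (K.w ^ j).coeff t) ≠ 0 → γ.degree ≤ a.degree + K.D * l + K.D * j)

/-- SECOND PART: `p ^ n r_{l,t} (p X + e)` is, up to the fixed denominator, a polynomial of
bounded degree modulo `p ^ M` -/
def RRPAStmt : Prop := ∀ (X : Idx) (E : Type) [Field E] [CharZero E] (A : PF X E), A.Ax →
  ∀ (n : ℕ) (K : Corner n E) (C M : ℕ), ∃ c0 : ℕ, ∀ c, c0 ≤ c → ∃ d : ℕ, X.Ev fun i =>
  ∀ (a : Fin (n + 1) →₀ ℕ) (l t e : ℕ) (h : (X.p i : E) ≠ 0), K.D ∣ a.degree + (n + 1) →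
    K.lv a ≤ n + 1 → l ≤ C * X.p i → t ≤ C * X.p i → e < X.p i →
    PA A i M d (algebraMap E[X] (RatFunc E) (qq E c K.D) ^ n *
      ((X.p i : RatFunc E) ^ n * affR (X.p i : E) (e : E) h
        (K.rr (K.lv a) (MvPolynomial.monomial a 1) l t)))

/-- the finitely many fixed rational functions -/
def FIXRStmt : Prop := ∀ (X : Idx) (E : Type) [Field E] [CharZero E] (A : PF X E), A.Ax →
  ∀ (n : ℕ) (K : Corner n E) (C : ℕ), ∃ c0 : ℕ, ∀ c, c0 ≤ c → ∃ d : ℕ, X.Ev fun i =>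
  ∀ (b : Fin (n + 1) →₀ ℕ) (l t : ℕ) (k : ℤ), K.D ∣ b.degree + (n + 1) → K.lv b ≤ C →
    l ≤ C → t ≤ C → |k| ≤ (C : ℤ) → ∃ g : E[X], A.Int i g ∧ g.natDegree ≤ d ∧
      algebraMap E[X] (RatFunc E) (qq E c K.D) ^ n * affR 1 (k : E) one_ne_zero
        (mapR (A.phi i) (K.rr (K.lv b) (MvPolynomial.monomial b 1) l t)) =
      algebraMap E[X] (RatFunc E) g

/-- the rational functions `RJ` of `ρ (z ^ a)` -/
def RJPStmt : Prop := ∀ (X : Idx) (E : Type) [Field E] [CharZero E] (A : PF X E), A.Ax →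
  ∀ (n : ℕ) (K : Corner n E) (J C : ℕ), ∃ c0 : ℕ, ∀ c, c0 ≤ c → ∃ d : ℕ, X.Ev fun i =>
  ∀ (a : Fin (n + 1) →₀ ℕ) (l t : ℤ) (e : ℕ), K.D ∣ a.degree + (n + 1) →
    K.lv a ≤ n + 1 → l ≤ ((C * X.p i : ℕ) : ℤ) → t ≤ ((C * X.p i : ℕ) : ℤ) → e < X.p i →
    ∃ g : E[X], A.Int i g ∧ g.natDegree ≤ d ∧
      algebraMap E[X] (RatFunc E) (qq E c K.D) ^ n *
        K.RJ (A.phi i) (X.p i) (K.rho3 (A.phi i) (X.p i) J a) e l t =
      algebraMap E[X] (RatFunc E) g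

/-- coefficients of `JJ^φ` and of `JJ 0` -/
def CFJStmt : Prop := ∀ (n : ℕ) (E : Type) [Field E] [CharZero E] (K : Corner n E),
  (∀ (φ : E →+* E) (p : ℕ) (hp : 0 < p) (g : Poly n (B3 E)) (l s t : ℤ),
    cf3 (K.JJp φ p hp (MvPolynomial.map (kB3 E) g)) l s t =
      ∑ b ∈ g.support, (act (MvPolynomial.coeff b g) (phF φ p (K.AI b)) l s t -
        act (MvPolynomial.coeff b g) (phF φ p (K.RI 0 b)) l s t)) ∧
  (∀ (a : Fin (n + 1) →₀ ℕ) (l s t : ℤ),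
    cf3 (K.JJ 0 (MvPolynomial.monomial a 1)) l s t = K.AI a l s t - K.RI 0 a l s t)

/-- FROBENIUS COMPATIBILITY on monomials, coefficientwise -/
def FROBStmt : Prop := ∀ (X : Idx) (E : Type) [Field E] [CharZero E] (A : PF X E), A.Ax →
  ∀ (n : ℕ) (K : Corner n E) (J : ℕ), 1 ≤ J → ∀ C3 : ℕ, X.Ev fun i =>
  ∀ a : Fin (n + 1) →₀ ℕ, K.D ∣ a.degree + (n + 1) → K.lv a ≤ n + 1 →
  ∀ l s t : ℤ, l ≤ ((C3 * X.p i : ℕ) : ℤ) → s ≤ ((C3 * X.p i : ℕ) : ℤ) →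
    t ≤ ((C3 * X.p i : ℕ) : ℤ) →
    A.Dv i J (cf3 (K.JJp (A.phi i) (X.p i) (X.hp i).pos
      (rhoE (X.p i) K.D J (A.ext.ext.ext.phi i) K.P (MvPolynomial.monomial a 1))) l s t -
      (X.p i : E) ^ n * cf3 (K.JJ 0 (MvPolynomial.monomial a 1)) l s t)

/-- the same on `e_P` -/
def FROEStmt : Prop := ∀ (X : Idx) (E : Type) [Field E] [CharZero E] (A : PF X E), A.Ax →
  ∀ (n : ℕ) (K : Corner n E) (J : ℕ), 1 ≤ J → ∀ C3 : ℕ, X.Ev fun i =>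
  ∀ l s t : ℤ, l ≤ ((C3 * X.p i : ℕ) : ℤ) → s ≤ ((C3 * X.p i : ℕ) : ℤ) →
    t ≤ ((C3 * X.p i : ℕ) : ℤ) →
    A.Dv i J (cf3 (K.JJp (A.phi i) (X.p i) (X.hp i).pos
      (rhoE (X.p i) K.D J (A.ext.ext.ext.phi i) K.P (eP K.D n K.P))) l s t -
      (X.p i : E) ^ n * cf3 (K.JJ 0 (eP K.D n K.P)) l s t)

/-- `JJ^φ` in coordinates -/
def JPRStmt : Prop := ∀ (X : Idx) (E : Type) [Field E] [CharZero E] (A : PF X E) (i : X.I)
  (n : ℕ) (K : Corner n E),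
  (∀ (x : F3 E) (g : Poly n (F3 E)), K.JJp (A.phi i) (X.p i) (X.hp i).pos (x • g) =
    ex3 E x * K.JJp (A.phi i) (X.p i) (X.hp i).pos g) ∧
  ∀ (N : Type) [Fintype N] [DecidableEq N] (b : N → Poly n (F3 E)) (l : N → ℕ)
    (co : Poly n (F3 E) →ₗ[F3 E] (N → F3 E)), IsCo K.P K.D b l co →
    ∀ g : Poly n (F3 E), ∑ c, phiT (A.phi i) (X.p i) (X.hp i).pos (K.JJ 0 (b c)) *
      ex3 E (coF (A.ext.ext.ext.phi i) co g c) = K.JJp (A.phi i) (X.p i) (X.hp i).pos g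

/-- FROBENIUS COMPATIBILITY in multiplied form -/
def MCJStmt : Prop := ∀ (X : Idx) (E : Type) [Field E] [CharZero E] (A : PF X E) (hA : A.Ax)
  (n : ℕ) (K : Corner n E) (N : Type) [Fintype N] [DecidableEq N] (b : N → Poly n (F3 E))
  (l : N → ℕ) (co : Poly n (F3 E) →ₗ[F3 E] (N → F3 E)), IsCo K.P K.D b l co →
  (∀ j, b j = eP K.D n K.P ∨ ∃ a, b j = MvPolynomial.monomial a 1) → ∀ J, 1 ≤ J → ∃ C : ℕ,
  ∀ C3 : ℕ, X.Ev fun i =>
    FUN.MC ((((FUN.TG.base A hA).lau All.xph).lau All.xph).lau All.xph)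
      i n J ((C3 : ℤ) * X.p i) (C * X.p i) (fun j => K.JJ 0 (b j))
      (matB (X.p i) K.D J (A.ext.ext.ext.phi i) K.P b co).transpose

end Corner

end Pool.CUBE
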