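import Pool.Agent.H38.CUBE.JJDefs

/-!
# MP_47888e_al, block CONT/JJ: statements of the modules, part 1 (characteristic 0)
-/

set_option autoImplicit false

open Polynomial

namespace Pool.CUBE

open Pool.CM Pool.H93.Cube

/-! ### rational functions and `Rc` -/

/-- elementary properties of `Rc` -/
def RCStmt : Prop := ∀ (E : Type) [Field E] [CharZero E],
  (∀ (j : ℕ) (N : ℤ) (r s : RatFunc E), Rc j N (r + s) = Rc j N r + Rc j N s) ∧
  (∀ (j : ℕ) (N : ℤ) (x : E) (r : RatFunc E), Rc j N (RatFunc.C x * r) = x * Rc j N r) ∧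
  (∀ (j : ℕ) (N k : ℤ) (r : RatFunc E),
    Rc j N (affR 1 (k : E) one_ne_zero r) = Rc j (N + k) r) ∧
  (∀ (j : ℕ) (N : ℤ) (r : RatFunc E),
    Rc j N (RatFunc.X * r) = (N : E) * Rc j N r - ((j + 1 : ℕ) : E) * Rc (j + 1) N r) ∧
  (∀ (N : ℤ) (g : E[X]), Rc 0 N (algebraMap E[X] (RatFunc E) g) = g.eval (N : E)) ∧
  (∀ (N : ℤ) (g : E[X]) (j : ℕ), 1 ≤ j → Rc j N (algebraMap E[X] (RatFunc E) g) = 0)

/-- a rational function which is regular and zero at all large integers is zero -/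
def RAT0Stmt : Prop := ∀ (E : Type) [Field E] [CharZero E] (r : RatFunc E) (N0 : ℤ),
  (∀ N : ℤ, N0 ≤ N → Rc 0 N r = 0) → r = 0

/-! ### integrals -/

/-- Dirichlet integrals in the coordinates of the order simplex -/
def DIRStmt : Prop := ∀ (n : ℕ) (E : Type) [Field E] [CharZero E]
  (g : MvPolynomial (Fin (n + 1)) E), Io g = Intc (zc g)

/-- `Io (Sig g) = Io g` and Euler's relation -/
def IOSStmt : Prop := ∀ (n : ℕ) (E : Type) [Field E] [CharZero E]
  (g : MvPolynomial (Fin (n + 1)) E),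
  Io (SigP n E * g) = Io g ∧
  ∀ (i : Fin (n + 1)) (d : ℕ), g.IsHomogeneous d →
    Io (ez i g + g) = ((d + n + 1 : ℕ) : E) * Io (MvPolynomial.X i * g)

/-- derivative in the direction `z_0` and the face `z_0 = 0` -/
def IOFStmt : Prop := ∀ (n : ℕ) (E : Type) [Field E] [CharZero E]
  (h : MvPolynomial (Fin (n + 2)) E) (d : ℕ), h.IsHomogeneous d →
  Io (MvPolynomial.pderiv 0 h) = ((d + n + 1 : ℕ) : E) * Io h -
    Io (MvPolynomial.aeval (Fin.cases 0 MvPolynomial.X) h : MvPolynomial (Fin (n + 1)) E)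

/-! ### the corner functional -/

namespace Corner

variable {n : ℕ} {E : Type} [Field E]

/-- evaluation of `rr` at the integers `N ≥ L + l - 1` -/
def EVRStmt : Prop := ∀ (n : ℕ) (E : Type) [Field E] [CharZero E] (K : Corner n E) (L l t : ℕ)
  (g : MvPolynomial (Fin (n + 1)) E) (N : ℤ), 1 ≤ L → (L : ℤ) + l ≤ N + 1 →
  Rc 0 N (K.rr L g l t) = K.Ainf L g l t N ∧ ∀ j, 1 ≤ j → Rc j N (K.rr L g l t) = 0

/-- the coefficients of `δ_j` in the form `Cont ∘ J_∞` -/
def DELStmt : Prop := ∀ (n : ℕ) (E : Type) [Field E] [CharZero E] (K : Corner n E) (j : ℕ)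
  (a : Fin (n + 1) →₀ ℕ), K.D ∣ a.degree + (n + 1) → ∀ l s t : ℤ,
  (((K.del j a).coeff l).coeff s).coeff t =
    if 0 ≤ l ∧ 0 ≤ t then
      (if j = 0 then K.Ainf (K.lv a) (MvPolynomial.monomial a 1) l.toNat t.toNat (-s - 1) else 0) -
        Rc j (-s - 1) (K.rr (K.lv a) (MvPolynomial.monomial a 1) l.toNat t.toNat)
    else 0

/-- the relations for the functional at infinity -/
def ARELStmt : Prop := ∀ (n : ℕ) (E : Type) [Field E] [CharZero E] (K : Corner n E) (L l t : ℕ)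
  (g : MvPolynomial (Fin (n + 1)) E) (i : Fin (n + 1)) (N : ℤ), 1 ≤ L →
  g.IsHomogeneous (K.D * L - (n + 1)) → n + 1 ≤ K.D * L →
  K.Ainf L (ez i g + g) l t N = K.Ainf (L + 1) (ez i (SigP n E ^ K.D) * g) l t (N + 1) -
    (∑ k ∈ Finset.range (t + 1), K.Ainf (L + 1) (ez i (K.G k) * g) l (t - k) N) +
    (if l = 0 then 0 else K.Ainf (L + 1) (ez i (fer n K.D E) * g) (l - 1) t N)

/-- the relations for the rational functions -/
def RRELStmt : Prop := ∀ (n : ℕ) (E : Type) [Field E] [CharZero E] (K : Corner n E) (L l t : ℕ)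
  (g : MvPolynomial (Fin (n + 1)) E) (i : Fin (n + 1)), 1 ≤ L →
  g.IsHomogeneous (K.D * L - (n + 1)) → n + 1 ≤ K.D * L →
  K.rr L (ez i g + g) l t =
    affR 1 1 one_ne_zero (K.rr (L + 1) (ez i (SigP n E ^ K.D) * g) l t) -
    (∑ k ∈ Finset.range (t + 1), K.rr (L + 1) (ez i (K.G k) * g) l (t - k)) +
    (if l = 0 then 0 else K.rr (L + 1) (ez i (fer n K.D E) * g) (l - 1) t)

/-- the connection in the direction `λ` on `Ainf` and `rr` -/
def LAMStmt : Prop := ∀ (n : ℕ) (E : Type) [Field E] [CharZero E] (K : Corner n E) (L l t : ℕ)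
  (g : MvPolynomial (Fin (n + 1)) E) (N : ℤ), 1 ≤ L →
  (K.Ainf (L + 1) (fer n K.D E * g) l t N = -(((l + 1 : ℕ) : E) * K.Ainf L g (l + 1) t N)) ∧
  (K.rr (L + 1) (fer n K.D E * g) l t = -(((l + 1 : ℕ) : RatFunc E) * K.rr L g (l + 1) t))

/-- the connection in the direction `σ` on `Ainf` and `rr` -/
def SIGStmt : Prop := ∀ (n : ℕ) (E : Type) [Field E] [CharZero E] (K : Corner n E) (L l t : ℕ)
  (g : MvPolynomial (Fin (n + 1)) E) (N : ℤ), 1 ≤ L →
  (K.Ainf (L + 1) (SigP n E ^ K.D * g) l t (N + 1) = ((N + 1 : ℤ) : E) * K.Ainf L g l t N) ∧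
  (affR 1 1 one_ne_zero (K.rr (L + 1) (SigP n E ^ K.D * g) l t) =
    (RatFunc.X + 1) * K.rr L g l t)

/-- coefficients of `JJ_j (x g)` for a monomial `x = e σ ^ u τ ^ v λ ^ w` and
`g` homogeneous of level `L` with coefficients in `E` -/
def COEStmt : Prop := ∀ (n : ℕ) (E : Type) [Field E] [CharZero E] (K : Corner n E) (j L : ℕ)
  (g : MvPolynomial (Fin (n + 1)) E) (u v w : ℕ), 1 ≤ L →
  g.IsHomogeneous (K.D * L - (n + 1)) → n + 1 ≤ K.D * L → ∀ l s t : ℤ,
  (((K.JJ j (MvPolynomial.C (lamF E ^ u * sigF E ^ v * tauF E ^ w) *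
      MvPolynomial.map (cF E) g)).coeff l).coeff s).coeff t =
    if (u : ℤ) ≤ l ∧ (w : ℤ) ≤ t then
      (if j = 0 then K.Ainf L g (l - u).toNat (t - w).toNat (-(s - v) - 1) else 0) -
        Rc j (-(s - v) - 1) (K.rr L g (l - u).toNat (t - w).toNat)
    else 0

/-- `JJ_j` is linear over `F3 E` -/
def LINStmt : Prop := ∀ (n : ℕ) (E : Type) [Field E] (K : Corner n E) (j : ℕ)
  (x : F3 E) (g : MvPolynomial (Fin (n + 1)) (F3 E)), K.JJ j (x • g) = ex3 E x * K.JJ j g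

/-- only levels: `JJ_j g = 0` if no monomial of `g` has weight divisible by `D` -/
def JJLVStmt : Prop := ∀ (n : ℕ) (E : Type) [Field E] (K : Corner n E) (j : ℕ)
  (x : F3 E) (a : Fin (n + 1) →₀ ℕ), ¬ K.D ∣ a.degree + (n + 1) →
  K.JJ j (MvPolynomial.monomial a x) = 0

/-- `JJ_j` kills the relations -/
def JJRELStmt : Prop := ∀ (n : ℕ) (E : Type) [Field E] [CharZero E] (K : Corner n E) (j : ℕ)
  (i : Fin (n + 1)) (g : MvPolynomial (Fin (n + 1)) (F3 E)), K.JJ j (Dop K.P i g) = 0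

/-! derivations -/

/-- derivations of a field (with the canonical `ℤ`-algebra structure) -/
abbrev DerZ (L : Type) [Field L] : Type := Derivation ℤ L L

/-- `λ d/dλ` on `F3 E` -/
noncomputable def dLam (E : Type) [Field E] : DerZ (F3 E) :=
  fd (nabP (RatFunc (RatFunc E)))

/-- `σ d/dσ` on `F3 E` -/
noncomputable def dSig (E : Type) [Field E] : DerZ (F3 E) :=
  fd (dCoeff (fd (nabP (RatFunc E)) : DerZ (RatFunc (RatFunc E))))

/-- expansion and derivations -/
def EXDStmt : Prop := ∀ (E : Type) [Field E] [CharZero E] (x : F3 E),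
  ex3 E (dLam E x) = Pool.H93.Cube.nab (ex3 E x) ∧ ex3 E (dSig E x) = nabS E (ex3 E x)

/-- Leibniz rule for `nabS` -/
def LEIStmt : Prop := ∀ (E : Type) [Field E] (x y : T3 E),
  nabS E (x * y) = nabS E x * y + x * nabS E y

/-- horizontality in the direction `λ` -/
def JJNLStmt : Prop := ∀ (n : ℕ) (E : Type) [Field E] [CharZero E] (K : Corner n E) (j : ℕ)
  (g : MvPolynomial (Fin (n + 1)) (F3 E)), K.JJ j (nab0 (dLam E) K.P g) = Pool.H93.Cube.nab (K.JJ j g)

/-- horizontality in the direction `σ`, with logarithms -/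
def JJNSStmt : Prop := ∀ (n : ℕ) (E : Type) [Field E] [CharZero E] (K : Corner n E) (j : ℕ)
  (g : MvPolynomial (Fin (n + 1)) (F3 E)),
  K.JJ j (nab0 (dSig E) K.P g) = nabS E (K.JJ j g) + ((j + 1 : ℕ) : T3 E) * K.JJ (j + 1) g

/-- at most `n` logarithms -/
def JJTOPStmt : Prop := ∀ (n : ℕ) (E : Type) [Field E] [CharZero E] (K : Corner n E) (j : ℕ)
  (g : MvPolynomial (Fin (n + 1)) (F3 E)), n < j → K.JJ j g = 0

/-- positivity: on numerators of level `1` the coefficient of `λ ^ 0` is a power series in `σ` -/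
def JJPOSStmt : Prop := ∀ (n : ℕ) (E : Type) [Field E] [CharZero E] (K : Corner n E) (j : ℕ)
  (a : Fin (n + 1) →₀ ℕ), a.degree + (n + 1) = K.D →
  (∀ l : ℤ, l < 0 → (K.del j a).coeff l = 0) ∧ ∀ s : ℤ, s < 0 → ((K.del j a).coeff 0).coeff s = 0

/-! the unit class -/

/-- the restriction of polynomials in `c_1, …, c_{n+1}` to the face `c_1 = 1` -/
noncomputable def rc (n : ℕ) (E : Type) [Field E] :
    MvPolynomial (Fin (n + 1)) E →ₐ[E] MvPolynomial (Fin n) E :=
  MvPolynomial.aeval (Fin.cases 1 MvPolynomial.X)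

/-- the corner data of the face `z_0 = 0` -/
def IsFace (K : Corner (n + 1) E) (K0 : Corner n E) : Prop :=
  K0.D = K.D ∧ (∀ i, K0.μ i = K.μ i.succ) ∧ K0.w = K.w.map (rc n E).toRingHom

def FACEStmt : Prop := ∀ (n : ℕ) (E : Type) [Field E] (K : Corner (n + 1) E),
  ∃ K0 : Corner n E, IsFace K K0

/-- the coboundary of the face on `Ainf` -/
def AIOTAStmt : Prop := ∀ (n : ℕ) (E : Type) [Field E] [CharZero E] (K : Corner (n + 1) E)
  (K0 : Corner n E), IsFace K K0 → ∀ (L l t : ℕ) (g : MvPolynomial (Fin (n + 1)) E) (N : ℤ),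
  1 ≤ L → g.IsHomogeneous (K.D * L - (n + 1)) → n + 1 ≤ K.D * L →
  K0.Ainf L g l t N =
    K.Ainf (L + 1) (MvPolynomial.pderiv 0 (SigP (n + 1) E ^ K.D) *
      MvPolynomial.rename Fin.succ g) l t (N + 1) -
    (∑ k ∈ Finset.range (t + 1), K.Ainf (L + 1) (MvPolynomial.pderiv 0 (K.G k) *
      MvPolynomial.rename Fin.succ g) l (t - k) N) +
    (if l = 0 then 0 else K.Ainf (L + 1) (MvPolynomial.pderiv 0 (fer (n + 1) K.D E) *
      MvPolynomial.rename Fin.succ g) (l - 1) t N)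

/-- the coboundary of the face on `rr` -/
def RIOTAStmt : Prop := ∀ (n : ℕ) (E : Type) [Field E] [CharZero E] (K : Corner (n + 1) E)
  (K0 : Corner n E), IsFace K K0 → ∀ (L l t : ℕ) (g : MvPolynomial (Fin (n + 1)) E),
  1 ≤ L → g.IsHomogeneous (K.D * L - (n + 1)) → n + 1 ≤ K.D * L →
  K0.rr L g l t =
    affR 1 1 one_ne_zero (K.rr (L + 1) (MvPolynomial.pderiv 0 (SigP (n + 1) E ^ K.D) *
      MvPolynomial.rename Fin.succ g) l t) -
    (∑ k ∈ Finset.range (t + 1), K.rr (L + 1) (MvPolynomial.pderiv 0 (K.G k) *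
      MvPolynomial.rename Fin.succ g) l (t - k)) +
    (if l = 0 then 0 else K.rr (L + 1) (MvPolynomial.pderiv 0 (fer (n + 1) K.D E) *
      MvPolynomial.rename Fin.succ g) (l - 1) t)

/-- `P` of the face -/
def FACEPStmt : Prop := ∀ (n : ℕ) (E : Type) [Field E] [CharZero E] (K : Corner (n + 1) E)
  (K0 : Corner n E), IsFace K K0 →
  K0.P = faceP K.P

/-- the coboundary of the face -/
def JJIOTAStmt : Prop := ∀ (n : ℕ) (E : Type) [Field E] [CharZero E] (K : Corner (n + 1) E)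
  (K0 : Corner n E), IsFace K K0 → ∀ (j : ℕ) (g : MvPolynomial (Fin (n + 1)) (F3 E)),
    K.JJ j (MvPolynomial.pderiv 0 K.P * MvPolynomial.rename Fin.succ g) = K0.JJ j g

/-- dimension `0` -/
def JJE0Stmt : Prop := ∀ (E : Type) [Field E] [CharZero E] (K : Corner 0 E) (j : ℕ),
  K.JJ j (eP K.D 0 K.P) = if j = 0 then 1 else 0

/-- the value on the special element -/
def JJEStmt : Prop := ∀ (n : ℕ) (E : Type) [Field E] [CharZero E] (K : Corner n E) (j : ℕ),
  K.JJ j (eP K.D n K.P) = if j = 0 then 1 else 0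

end Corner

end Pool.CUBE
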