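import Pool.Agent.H38.CUBE.JJStmts2

/-!
# MP_47888e_al, block CONT/JJ, part 2: module PHT
-/

set_option autoImplicit false

open Polynomial

namespace Pool.CUBE

open Pool.CM Pool.H93.Cube

theorem pht_thm : PHTStmt := by
  intro X E _ A i x
  have h1 : ∀ y : RatFunc E, FUN.phiL (A.phi i) (X.p i) (X.hp i).pos (ex E y) =
      ex E (A.ext.phi i y) := fun y => (FUN.ex_phiL A All.xph i y).symm
  have h2 : ∀ y : RatFunc (RatFunc E),
      FUN.phiL (FUN.phiL (A.phi i) (X.p i) (X.hp i).pos) (X.p i) (X.hp i).pos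
        (FUN.mapL (ex E) (ex (RatFunc E) y)) =
      FUN.mapL (ex E) (ex (RatFunc E) (A.ext.ext.phi i y)) := by
    intro y
    rw [FUN.phiL_mapL _ (ex E) (A.ext.phi i) h1, FUN.ex_phiL A.ext All.xph i y]
  have h3 := FUN.phiL_mapL
    (FUN.phiL (FUN.phiL (A.phi i) (X.p i) (X.hp i).pos) (X.p i) (X.hp i).pos)
    ((FUN.mapL (ex E)).comp (ex (RatFunc E))) (A.ext.ext.phi i) h2 (X.p i) (X.hp i).pos
    (ex (RatFunc (RatFunc E)) x)
  rw [← FUN.ex_phiL A.ext.ext All.xph i x] at h3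
  exact h3

end Pool.CUBE
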