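import Pool.Agent.H38.CUBE.JJStmts
set_option autoImplicit false
open Polynomial
namespace Pool.CUBE
open Pool.CM Pool.H93.Cube
theorem jjlv_thm : Corner.JJLVStmt := by
  intro n E _ K j x a ha
  change ∑ b ∈ (MvPolynomial.monomial a x).support,
    ex3 E ((MvPolynomial.monomial a x).coeff b) * K.del j b = 0
  refine Finset.sum_eq_zero fun b hb => ?_
  have h1 : b = a := by
    have := MvPolynomial.support_monomial_subset hb
    simpa using this
  subst h1
  have h2 : K.del j b = 0 := by
    unfold Corner.del
    rw [if_neg ha]
  rw [h2, mul_zero]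
end Pool.CUBE
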