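import Pool.Agent.H12.CUBE.J_JJE
import Pool.Agent.H12.CUBE.J_JJE0
import Pool.Agent.H14.CUBE.J_AIOTA
import Pool.Agent.H19.CUBE.J_RIOTA
import Pool.Agent.H31.CUBE.J_LIN
import Pool.Agent.H31.CUBE.J_SIG
import Pool.Agent.H33.CUBE.J_DEL
import Pool.Agent.H33.CUBE.J_RC
import Pool.Agent.H34.CUBE.J_EXD
import Pool.Agent.H34.CUBE.J_JJPOS
import Pool.Agent.H38.CUBE.J_JJLV
import Pool.Agent.H49.CUBE.J_IOS
import Pool.Agent.H5.CUBE.J_JJNL
import Pool.Agent.H5.CUBE.J_JJNS
import Pool.Agent.H5.CUBE.J_LEI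
import Pool.Agent.H7.CUBE.J_DIR
import Pool.Agent.H7.CUBE.J_RAT0
import Pool.Agent.H74.CUBE.J_JJIOTA
import Pool.Agent.H83.CUBE.J_AREL
import Pool.Agent.H83.CUBE.J_EVR
import Pool.Agent.H83.CUBE.J_RREL
import Pool.Agent.H84.CUBE.J_FACE
import Pool.Agent.H84.CUBE.J_FACEP
import Pool.Agent.H84.CUBE.J_JJTOP
import Pool.Agent.H84.CUBE.J_LAM
import Pool.Agent.H87.CUBE.J_COE
import Pool.Agent.H87.CUBE.J_JJREL

/-!
# MP_47888e_al, block CONT/JJ, part 1 (characteristic 0): the theorems without hypotheses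
-/

set_option autoImplicit false

namespace Pool.CUBE.JJAll

open Pool.CUBE

theorem rc : RCStmt := rc_thm
theorem rat0 : RAT0Stmt := rat0_thm rc
theorem dir : DIRStmt := dir_thm
theorem ios : IOSStmt := ios_thm
theorem iof : IOFStmt := iof_thm
theorem evr : Corner.EVRStmt := evr_thm rc dir
theorem del : Corner.DELStmt := del_thm evr
theorem arel : Corner.ARELStmt := arel_thm ios
theorem rrel : Corner.RRELStmt := rrel_thm rc rat0 evr arel
theorem lam : Corner.LAMStmt := lam_thm
theorem sig : Corner.SIGStmt := sig_thm ios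
theorem lin : Corner.LINStmt := lin_thm
theorem lv : Corner.JJLVStmt := jjlv_thm
theorem coe : Corner.COEStmt := coe_thm rc del lin
theorem rel : Corner.JJRELStmt := jjrel_thm rc lin lv coe arel rrel
theorem exd : Corner.EXDStmt := exd_thm
theorem lei : Corner.LEIStmt := lei_thm
theorem nl : Corner.JJNLStmt := jjnl_thm rc lin lv coe lam exd
theorem ns : Corner.JJNSStmt := jjns_thm rc lin lv coe sig exd lei
theorem top : Corner.JJTOPStmt := jjtop_thm
theorem pos : Corner.JJPOSStmt := jjpos_thm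
theorem face : Corner.FACEStmt := face_thm
theorem facep : Corner.FACEPStmt := facep_thm
theorem aiota : Corner.AIOTAStmt := aiota_thm ios iof
theorem riota : Corner.RIOTAStmt := riota_thm rc rat0 evr aiota
theorem iota : Corner.JJIOTAStmt := jjiota_thm rc lin lv coe aiota riota facep
theorem e0 : Corner.JJE0Stmt := jje0_thm rc coe
theorem e : Corner.JJEStmt := jje_thm face facep iota e0

end Pool.CUBE.JJAll
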