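import Pool.Agent.H41.CUBE.TDefs

/-!
# MP_47888e_al, block CONT/JJ: definitions

The corner functional of an order simplex as formal continuation in `N` of the functional at
`σ = ∞`. Target: iterated Laurent series `T3 E` (outer variable `λ`, then `σ`, then `τ`),
logarithms `ℓ = log σ` are kept as a finite family of functionals `JJ 0, …, JJ n`.
-/

set_option autoImplicit false

open Polynomial

namespace Pool.CUBE

open Pool.CM Pool.H93.Cube

section Rat

variable {E : Type} [Field E]

/-- the substitution `X ↦ u X + v` on polynomials -/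
noncomputable def affP (u v : E) : E[X] →+* E[X] :=
  Polynomial.eval₂RingHom Polynomial.C (Polynomial.C u * Polynomial.X + Polynomial.C v)

theorem affP_injective (u v : E) (hu : u ≠ 0) : Function.Injective (affP u v) := by
  rw [injective_iff_map_eq_zero]
  intro g hg
  have h1 : g.comp (Polynomial.C u * Polynomial.X + Polynomial.C v) = 0 := hg
  rw [Polynomial.comp_eq_zero_iff] at h1
  rcases h1 with h | ⟨_, h⟩
  · exact h
  · exfalso
    have h2 := congrArg (fun q : E[X] => q.coeff 1) h
    simp only [Polynomial.coeff_add, Polynomial.coeff_C_mul, Polynomial.coeff_X_one, mul_one,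
      Polynomial.coeff_C_succ, add_zero] at h2
    exact hu h2

theorem affP_le (u v : E) (hu : u ≠ 0) :
    nonZeroDivisors E[X] ≤ (nonZeroDivisors E[X]).comap (affP u v) := by
  intro g hg
  rw [Submonoid.mem_comap, mem_nonZeroDivisors_iff_ne_zero]
  rw [mem_nonZeroDivisors_iff_ne_zero] at hg
  intro h
  exact hg (affP_injective u v hu (by rw [h, map_zero]))

/-- the substitution `X ↦ u X + v` (`u ≠ 0`) on rational functions -/
noncomputable def affR (u v : E) (hu : u ≠ 0) : RatFunc E →+* RatFunc E :=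
  RatFunc.mapRingHom (affP u v) (affP_le u v hu)

/-- the expansion of a rational function at the integer `N`, `r (N + ε)` -/
noncomputable def lexp (N : ℤ) : RatFunc E →+* LaurentSeries E :=
  (ex E).comp (affR 1 (N : E) one_ne_zero)

/-- the coefficient of `ℓ ^ j` in the residue of `r (N + ε) exp (-ε ℓ) dε / ε` -/
noncomputable def Rc (j : ℕ) (N : ℤ) (r : RatFunc E) : E :=
  ((-1) ^ j / (j.factorial : E)) * (lexp N r).coeff (-(j : ℤ))

/-- `binom (X, k)` as a rational function -/
noncomputable def binR (E : Type) [Field E] (k : ℕ) : RatFunc E :=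
  algebraMap E[X] (RatFunc E) (Polynomial.C ((k.factorial : E)⁻¹) * descPochhammer E k)

end Rat

/-! ### integrals over the order simplex `1 ≥ c_1 ≥ ⋯ ≥ c_n ≥ 0` -/

section Simplex

variable {n : ℕ} {E : Type} [Field E]

/-- `B_i (γ) = ∑_{i' ≥ i} (γ_{i'} + 1)` -/
def Bx (γ : Fin n →₀ ℕ) (i : Fin n) : ℕ := ∑ i' ∈ Finset.univ.filter (fun i' => i ≤ i'), (γ i' + 1)

/-- `M_i = ∑_{i' ≥ i} μ_{i'}` -/
def Mx (μ : Fin n →₀ ℕ) (i : Fin n) : ℕ := ∑ i' ∈ Finset.univ.filter (fun i' => i ≤ i'), μ i'

/-- `c ^ γ ↦ ∏ 1 / B_i (γ)` -/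
noncomputable def Intc : MvPolynomial (Fin n) E →ₗ[E] E :=
  linMon fun γ => ∏ i, ((Bx γ i : ℕ) : E)⁻¹

/-- the Mellin transform `c ^ γ ↦ ∏ 1 / (B_i (γ) + X M_i)`, i.e. `h ↦ Int (h c ^ (X μ))` -/
noncomputable def Mell (μ : Fin n →₀ ℕ) : MvPolynomial (Fin n) E →ₗ[E] RatFunc E :=
  linMon fun γ => ∏ i, (((Bx γ i : ℕ) : RatFunc E) + ((Mx μ i : ℕ) : RatFunc E) * RatFunc.X)⁻¹

/-- Dirichlet integrals `z ^ a ↦ ∏ a_i! / (|a| + n)!` -/
noncomputable def Io : MvPolynomial (Fin (n + 1)) E →ₗ[E] E :=
  linMon fun a => (∏ i, ((a i).factorial : E)) / ((a.degree + n).factorial : E)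

/-- `c_0 = 1, c_1, …, c_n, c_{n+1} = 0` -/
noncomputable def cpt (E : Type) [Field E] (n : ℕ) (k : ℕ) : MvPolynomial (Fin n) E :=
  if k = 0 then 1 else if h : k - 1 < n then MvPolynomial.X ⟨k - 1, h⟩ else 0

/-- dehomogenisation `z_i ↦ c_i - c_{i+1}` -/
noncomputable def zc : MvPolynomial (Fin (n + 1)) E →ₐ[E] MvPolynomial (Fin n) E :=
  MvPolynomial.aeval fun i : Fin (n + 1) => cpt E n i - cpt E n (i + 1)

variable {R : Type} [CommRing R]

/-- `z_0 + ⋯ + z_n` -/
noncomputable def SigP (n : ℕ) (R : Type) [CommRing R] : MvPolynomial (Fin (n + 1)) R :=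
  ∑ i, MvPolynomial.X i

/-- `c_l = z_{l+1} + ⋯ + z_n` (`l : Fin n`, so this is `c_{l+1}` in the numbering
`1 ≥ c_1 ≥ ⋯`) -/
noncomputable def clP (n : ℕ) (R : Type) [CommRing R] (l : Fin n) :
    MvPolynomial (Fin (n + 1)) R :=
  ∑ i ∈ Finset.univ.filter (fun i : Fin (n + 1) => (l : ℕ) < i), MvPolynomial.X i

/-- homogenisation of degree `D`: `c ^ γ ↦ Sig ^ (D - |γ|) ∏ c_l ^ γ_l` -/
noncomputable def homD (D : ℕ) : MvPolynomial (Fin n) R →ₗ[R] MvPolynomial (Fin (n + 1)) R :=
  linMon fun γ => SigP n R ^ (D - γ.degree) * ∏ l, clP n R l ^ γ l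

end Simplex

/-! ### the corner data -/

/-- Data of a corner cell: `g = c ^ μ (1 + w)`, `w ∈ τ E[c][τ]`. -/
structure Corner (n : ℕ) (E : Type) [Field E] where
  D : ℕ
  μ : Fin n →₀ ℕ
  w : Polynomial (MvPolynomial (Fin n) E)
  hD : 0 < D
  hw : w.coeff 0 = 0
  hμ : μ.degree < D
  hdeg : ∀ k, μ.degree + (w.coeff k).totalDegree < D

/-- three more variables: `τ` (inner), `σ`, `λ` (outer) -/
abbrev F3 (E : Type) [Field E] : Type := RatFunc (RatFunc (RatFunc E))

/-- iterated Laurent series: outer `λ`, then `σ`, inner `τ` -/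
abbrev T3 (E : Type) [Field E] : Type := LaurentSeries (LaurentSeries (LaurentSeries E))

section Inst

variable {E : Type} [Field E]

noncomputable instance instT3CommRing : CommRing (T3 E) := inferInstance

instance instT3Right : RightDistribClass (T3 E) :=
  @Distrib.rightDistribClass _
    (instT3CommRing (E := E)).toNonUnitalCommRing.toNonUnitalRing.toNonUnitalNonAssocRing.toNonUnitalNonAssocSemiring.toDistrib

instance instT3Left : LeftDistribClass (T3 E) :=
  @Distrib.leftDistribClass _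
    (instT3CommRing (E := E)).toNonUnitalCommRing.toNonUnitalRing.toNonUnitalNonAssocRing.toNonUnitalNonAssocSemiring.toDistrib

end Inst

section Hom

variable {E : Type} [Field E]

/-- expansion at `λ = 0`, then `σ = 0`, then `τ = 0` -/
noncomputable def ex3 (E : Type) [Field E] : F3 E →+* T3 E :=
  (cmapR ((cmapR (ex E)).comp (ex (RatFunc E)))).comp (ex (RatFunc (RatFunc E)))

/-- `σ d/dσ` on `T3 E` (coefficientwise in `λ`) -/
noncomputable def nabS (E : Type) [Field E] : T3 E →+ T3 E :=
  cmap (Pool.H93.Cube.nab (E := LaurentSeries E)).toAddMonoidHom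

end Hom

/-! ### the corner data -/

namespace Corner

variable {n : ℕ} {E : Type} [Field E] (K : Corner n E)

/-- the coefficient of `τ ^ k` in `1 + w` -/
noncomputable def W (k : ℕ) : MvPolynomial (Fin n) E := (1 + K.w).coeff k

/-- `Σ z_i ^ D` -/
noncomputable def fer (n D : ℕ) (R : Type) [CommRing R] : MvPolynomial (Fin (n + 1)) R :=
  ∑ i, MvPolynomial.X i ^ D

/-- the homogeneous form of degree `D` of the coefficient of `τ ^ k` in `g = c ^ μ (1 + w)` -/
noncomputable def G (k : ℕ) : MvPolynomial (Fin (n + 1)) E :=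
  homD K.D (MvPolynomial.monomial K.μ 1 * K.W k)

/-- the variable `τ` of `F3 E` -/
noncomputable def tauF (E : Type) [Field E] : F3 E := RatFunc.C (RatFunc.C RatFunc.X)

/-- the variable `σ` of `F3 E` -/
noncomputable def sigF (E : Type) [Field E] : F3 E := RatFunc.C RatFunc.X

/-- the variable `λ` of `F3 E` -/
noncomputable def lamF (E : Type) [Field E] : F3 E := RatFunc.X

/-- constants -/
noncomputable def cF (E : Type) [Field E] : E →+* F3 E :=
  (RatFunc.C (K := RatFunc (RatFunc E))).comp ((RatFunc.C (K := RatFunc E)).comp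
    (RatFunc.C (K := E)))

/-- constants of `E(τ)(σ)` -/
noncomputable def cF2 (E : Type) [Field E] : E →+* RatFunc (RatFunc E) :=
  (RatFunc.C (K := RatFunc E)).comp (RatFunc.C (K := E))

/-- `P₀ = σ Sig ^ D - Σ_k τ ^ k G_k` over `E(τ)(σ)` -/
noncomputable def P0 : MvPolynomial (Fin (n + 1)) (RatFunc (RatFunc E)) :=
  MvPolynomial.C (RatFunc.X : RatFunc (RatFunc E)) * SigP n _ ^ K.D -
    ∑ k ∈ Finset.range ((1 + K.w).natDegree + 1),
      MvPolynomial.C (RatFunc.C (RatFunc.X : RatFunc E) ^ k) * MvPolynomial.map (cF2 E) (K.G k)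

/-- `P = P₀ + λ Σ z_i ^ D` over `E(τ)(σ)(λ)` -/
noncomputable def P : MvPolynomial (Fin (n + 1)) (F3 E) := ferm K.D K.P0

/-- level of a monomial: `D L = |a| + n + 1` -/
noncomputable def lv (a : Fin (n + 1) →₀ ℕ) : ℕ := (a.degree + (n + 1)) / K.D

/-- the polynomial `Σ_k τ ^ k G_k` in `τ` -/
noncomputable def GP : Polynomial (MvPolynomial (Fin (n + 1)) E) :=
  ∑ k ∈ Finset.range ((1 + K.w).natDegree + 1), Polynomial.monomial k (K.G k)

/-- The functional at `σ = ∞`: the coefficient of `λ ^ l τ ^ t σ ^ (-N-1)` on a numerator `g` of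
level `L` (`deg g = D L - (n + 1)`). -/
noncomputable def Ainf (L : ℕ) (g : MvPolynomial (Fin (n + 1)) E) (l t : ℕ) (N : ℤ) : E :=
  if (L : ℤ) + l ≤ N + 1 then
    (-1) ^ l * ((N.toNat.factorial : E) / ((l.factorial : E) * ((N + 1 - L - l).toNat.factorial : E))) *
      Io (g * fer n K.D E ^ l * (K.GP ^ (N + 1 - L - l).toNat).coeff t)
  else 0

/-- The rational function `r_{l,t}(X)` attached to a numerator `g` of level `L`: its value at an
integer `N ≥ L + l - 1` is `Ainf L g l t N`. -/
noncomputable def rr (L : ℕ) (g : MvPolynomial (Fin (n + 1)) E) (l t : ℕ) : RatFunc E :=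
  (-1) ^ l * (((L + l - 1).factorial : RatFunc E) / (l.factorial : RatFunc E)) *
    binR E (L + l - 1) *
    affR 1 (1 - (L : E) - (l : E)) one_ne_zero
      (∑ j ∈ Finset.range (t + 1), binR E j *
        Mell K.μ (zc (g * fer n K.D E ^ l) * (K.w ^ j).coeff t))

/-- the value `δ_j (z ^ a)` of the functional on a monomial -/
noncomputable def del (j : ℕ) (a : Fin (n + 1) →₀ ℕ) : T3 E :=
  open Classical in
  if K.D ∣ a.degree + (n + 1) then
    HahnSeries.ofPowerSeries ℤ _ (PowerSeries.mk fun l =>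
      HahnSeries.single (1 - ((K.lv a + l : ℕ) : ℤ)) 1 *
        HahnSeries.ofPowerSeries ℤ _ (PowerSeries.mk fun s =>
          HahnSeries.ofPowerSeries ℤ _ (PowerSeries.mk fun t =>
            -Rc j (((K.lv a + l : ℕ) : ℤ) - 2 - s)
              (K.rr (K.lv a) (MvPolynomial.monomial a 1) l t))))
  else 0

/-- the functional `JJ_j` -/
noncomputable def JJ (j : ℕ) : MvPolynomial (Fin (n + 1)) (F3 E) →+ T3 E where
  toFun g := ∑ a ∈ g.support, ex3 E (g.coeff a) * K.del j a
  map_zero' := by simp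
  map_add' g h := by
    classical
    rw [Finset.sum_subset (s₁ := (g + h).support) (s₂ := g.support ∪ h.support)
        MvPolynomial.support_add,
      Finset.sum_subset (s₁ := g.support) (s₂ := g.support ∪ h.support)
        Finset.subset_union_left,
      Finset.sum_subset (s₁ := h.support) (s₂ := g.support ∪ h.support)
        Finset.subset_union_right, ← Finset.sum_add_distrib]
    · refine Finset.sum_congr rfl fun a _ => ?_
      rw [MvPolynomial.coeff_add, map_add, add_mul]
    all_goals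
      intro a _ ha
      rw [MvPolynomial.notMem_support_iff.1 ha, map_zero, zero_mul]

end Corner

end Pool.CUBE
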