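import Pool.Agent.H38.CUBE.JJStmts
import Pool.Agent.H41.CUBE.JDefs
import Pool.Agent.H91.CUBE.FunLim

/-!
# MP_47888e_al, block CONT/JJ, part 2 (Frobenius): definitions
-/

set_option autoImplicit false

open Polynomial

namespace Pool.CUBE

open Pool.CM Pool.H93.Cube

/-! ### polynomials in `τ`, `λ`, `σ` -/

/-- `E[τ][λ]` -/
abbrev B2 (E : Type) [Field E] : Type := Polynomial (Polynomial E)

/-- `E[τ][λ][σ]` -/
abbrev B3 (E : Type) [Field E] : Type := Polynomial (Polynomial (Polynomial E))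

section Base

variable {E : Type} [Field E]

/-- constants of `E[τ][λ][σ]` -/
noncomputable def cB3 (E : Type) [Field E] : E →+* B3 E :=
  (Polynomial.C (R := B2 E)).comp ((Polynomial.C (R := E[X])).comp (Polynomial.C (R := E)))

/-- `E[τ][λ] → E(τ)(σ)(λ)` -/
noncomputable def kB2 (E : Type) [Field E] : B2 E →+* F3 E :=
  Polynomial.eval₂RingHom (Polynomial.eval₂RingHom (Corner.cF E) (Corner.tauF E)) (Corner.lamF E)

/-- `E[τ][λ][σ] → E(τ)(σ)(λ)` -/
noncomputable def kB3 (E : Type) [Field E] : B3 E →+* F3 E :=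
  Polynomial.eval₂RingHom (kB2 E) (Corner.sigF E)

/-- the Frobenius lift of `E[τ][λ]` -/
noncomputable def phB2 (φ : E →+* E) (p : ℕ) : B2 E →+* B2 E :=
  (Polynomial.expand E[X] p).toRingHom.comp (Polynomial.mapRingHom (phiP φ p))

/-- the Frobenius lift of `E[τ][λ][σ]` -/
noncomputable def phB3 (φ : E →+* E) (p : ℕ) : B3 E →+* B3 E :=
  (Polynomial.expand (B2 E) p).toRingHom.comp (Polynomial.mapRingHom (phB2 φ p))

/-- polynomials in `τ, λ` with coefficients in a subring -/
def O2 (O : Subring E) : Subring (B2 E) where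
  carrier := {x | ∀ u w, (x.coeff u).coeff w ∈ O}
  mul_mem' := by
    intro x y hx hy u w
    rw [Polynomial.coeff_mul, Polynomial.finsetSum_coeff]
    refine O.sum_mem fun c _ => ?_
    rw [Polynomial.coeff_mul]
    exact O.sum_mem fun d _ => O.mul_mem (hx _ _) (hy _ _)
  one_mem' := by
    intro u w
    rw [Polynomial.coeff_one]
    split_ifs
    · rw [Polynomial.coeff_one]
      split_ifs
      · exact O.one_mem
      · exact O.zero_mem
    · rw [Polynomial.coeff_zero]
      exact O.zero_mem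
  add_mem' := by
    intro x y hx hy u w
    rw [Polynomial.coeff_add, Polynomial.coeff_add]
    exact O.add_mem (hx _ _) (hy _ _)
  zero_mem' := by
    intro u w
    rw [Polynomial.coeff_zero, Polynomial.coeff_zero]
    exact O.zero_mem
  neg_mem' := by
    intro x hx u w
    rw [Polynomial.coeff_neg, Polynomial.coeff_neg]
    exact O.neg_mem (hx _ _)

/-- Families `F (l, s, t)` (exponents of `λ`, `σ`, `τ`) with values in an `E`-vector space:
`λ ^ u σ ^ k τ ^ w` acts by the shift. -/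
noncomputable def act {V : Type} [AddCommGroup V] [Module E V] (x : B3 E)
    (F : ℤ → ℤ → ℤ → V) (l s t : ℤ) : V :=
  x.sum fun k y => y.sum fun u z => z.sum fun w e => e • F (l - u) (s - k) (t - w)

open Classical in
/-- the Frobenius on families -/
noncomputable def phF (φ : E →+* E) (p : ℕ) (F : ℤ → ℤ → ℤ → E) (l s t : ℤ) : E :=
  if (p : ℤ) ∣ l ∧ (p : ℤ) ∣ s ∧ (p : ℤ) ∣ t then φ (F (l / p) (s / p) (t / p)) else 0

/-- the coefficients of an element of `T3 E` -/
noncomputable def cf3 (y : T3 E) (l s t : ℤ) : E := ((y.coeff l).coeff s).coeff t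

/-- the Frobenius lift of `T3 E` -/
noncomputable def phiT (φ : E →+* E) (p : ℕ) (hp : 0 < p) : T3 E →+* T3 E :=
  FUN.phiL (FUN.phiL (FUN.phiL φ p hp) p hp) p hp

/-! ### rational functions -/

theorem mapP_le (φ : E →+* E) :
    nonZeroDivisors E[X] ≤ (nonZeroDivisors E[X]).comap (Polynomial.mapRingHom φ) := by
  intro g hg
  rw [Submonoid.mem_comap, mem_nonZeroDivisors_iff_ne_zero]
  rw [mem_nonZeroDivisors_iff_ne_zero] at hg
  intro h
  exact hg (Polynomial.map_injective φ φ.injective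
    (by rw [Polynomial.map_zero]; exact h))

/-- `φ` on the coefficients of rational functions -/
noncomputable def mapR (φ : E →+* E) : RatFunc E →+* RatFunc E :=
  RatFunc.mapRingHom (Polynomial.mapRingHom φ) (mapP_le φ)

variable {X : Idx}

/-- Rational functions whose expansions at all integers are power series with coefficients
in the valuation ring. -/
noncomputable def Rint (A : PF X E) (i : X.I) : Set (RatFunc E) :=
  {r | ∀ N k : ℤ, (lexp N r).coeff k ∈ A.O i ∧ (k < 0 → (lexp N r).coeff k = 0)}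

/-- polynomials of degree `≤ d` over `O` modulo `p ^ M` -/
def PA (A : PF X E) (i : X.I) (M d : ℕ) (r : RatFunc E) : Prop :=
  ∃ g : E[X], A.Int i g ∧ g.natDegree ≤ d ∧ ∃ r1 ∈ Rint A i,
    r = algebraMap E[X] (RatFunc E) g + (X.p i : RatFunc E) ^ M * r1

/-- `∏ (b + m X)`, `|b| ≤ c`, `1 ≤ m ≤ D` -/
noncomputable def qq (E : Type) [Field E] (c D : ℕ) : E[X] :=
  ∏ b ∈ Finset.Icc (-(c : ℤ)) c, ∏ m ∈ Finset.Icc 1 D,
    (Polynomial.C (b : E) + Polynomial.C (m : E) * Polynomial.X)

end Base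

/-! ### the corner functional -/

namespace Corner

/-- `X₁ = Σ_k τ ^ k G_k - λ Σ z_i ^ D` over `E[τ][λ]` -/
noncomputable def X1 {n : ℕ} {E : Type} [Field E] (K : Corner n E) : Poly n (B2 E) :=
  ∑ k ∈ Finset.range ((1 + K.w).natDegree + 1),
    MvPolynomial.C (Polynomial.C (Polynomial.X ^ k) : B2 E) *
      MvPolynomial.map ((Polynomial.C (R := E[X])).comp (Polynomial.C (R := E))) (K.G k) -
  MvPolynomial.C (Polynomial.X : B2 E) * fer n K.D (B2 E)

/-- `P = σ Sig ^ D - X₁` over `E[τ][λ][σ]` -/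
noncomputable def P3 {n : ℕ} {E : Type} [Field E] (K : Corner n E) : Poly n (B3 E) :=
  (MvPolynomial.C (Polynomial.X : B3 E) : Poly n (B3 E)) * Sg n (B3 E) ^ K.D -
    (MvPolynomial.map (S₁ := B3 E) Polynomial.C K.X1 : Poly n (B3 E))

variable {n : ℕ} {E : Type} [Field E] (K : Corner n E)

/-- `E_P` over `E[τ][λ][σ]` -/
noncomputable def EL3 (φ : E →+* E) (p : ℕ) : Poly n (B3 E) :=
  MvPolynomial.C (cB3 E ((p : E)⁻¹)) *
    (K.P3 ^ p - MvPolynomial.expand p (MvPolynomial.map (phB3 φ p) K.P3))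

/-- `ρ (z ^ a)` over `E[τ][λ][σ]` -/
noncomputable def rho3 (φ : E →+* E) (p J : ℕ) (a : Fin (n + 1) →₀ ℕ) : Poly n (B3 E) :=
  rho0 p K.D J (fun j => cB3 E ((p : E) ^ j / (j.factorial : E))) K.P3 (K.EL3 φ p)
    (MvPolynomial.monomial a 1)

open Classical in
/-- the family of the coefficients of the functional at `σ = ∞` on `z ^ a` -/
noncomputable def AI (a : Fin (n + 1) →₀ ℕ) (l s t : ℤ) : E :=
  if K.D ∣ a.degree + (n + 1) ∧ 0 ≤ l ∧ 0 ≤ t then
    K.Ainf (K.lv a) (MvPolynomial.monomial a 1) l.toNat t.toNat (-s - 1)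
  else 0

open Classical in
/-- the family `Rc j (-s-1) r_{l,t}` on `z ^ a` -/
noncomputable def RI (j : ℕ) (a : Fin (n + 1) →₀ ℕ) (l s t : ℤ) : E :=
  if K.D ∣ a.degree + (n + 1) ∧ 0 ≤ l ∧ 0 ≤ t then
    Rc j (-s - 1) (K.rr (K.lv a) (MvPolynomial.monomial a 1) l.toNat t.toNat)
  else 0

open Classical in
/-- the family of rational functions `φ (r_{l/p, t/p}) (X - s/p - 1)` -/
noncomputable def RF (φ : E →+* E) (p : ℕ) (a : Fin (n + 1) →₀ ℕ) (l s t : ℤ) : RatFunc E :=
  if (p : ℤ) ∣ l ∧ (p : ℤ) ∣ s ∧ (p : ℤ) ∣ t ∧ K.D ∣ a.degree + (n + 1) ∧ 0 ≤ l ∧ 0 ≤ t then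
    affR 1 ((-(s / p) - 1 : ℤ) : E) one_ne_zero
      (mapR φ (K.rr (K.lv a) (MvPolynomial.monomial a 1) (l / p).toNat (t / p).toNat))
  else 0

/-- The functional `J^φ` on `g`, on the residue class of `e` modulo `p`, as rational functions
of `N'`, `N = p N' + e`. -/
noncomputable def RJ (φ : E →+* E) (p : ℕ) (g : Poly n (B3 E)) (e : ℕ) (l t : ℤ) : RatFunc E :=
  ∑ b ∈ g.support, act (MvPolynomial.coeff b g) (K.RF φ p b) l (-(e : ℤ) - 1) t

/-- the functional `JJ^φ` -/
noncomputable def JJp (φ : E →+* E) (p : ℕ) (hp : 0 < p) :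
    MvPolynomial (Fin (n + 1)) (F3 E) →+ T3 E where
  toFun g := ∑ a ∈ g.support, ex3 E (g.coeff a) * phiT φ p hp (K.del 0 a)
  map_zero' := by simp
  map_add' g h := by
    classical
    rw [Finset.sum_subset (s₁ := (g + h).support) (s₂ := g.support ∪ h.support)
        MvPolynomial.support_add,
      Finset.sum_subset (s₁ := g.support) (s₂ := g.support ∪ h.support)
        Finset.subset_union_left,
      Finset.sum_subset (s₁ := h.support) (s₂ := g.support ∪ h.support)
        Finset.subset_union_right, ← Finset.sum_add_distrib]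
    · refine Finset.sum_congr rfl fun a _ => ?_
      rw [MvPolynomial.coeff_add, map_add, add_mul]
    all_goals
      intro a _ ha
      rw [MvPolynomial.notMem_support_iff.1 ha, map_zero, zero_mul]

end Corner

end Pool.CUBE
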